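import Mathlib

set_option autoImplicit false

/-!
# Preliminaries on polynomials for the divisor theory of smooth plane curves
-/

open MvPolynomial

namespace Pool.Agent.TH166.TP

/-- forms in three variables -/
abbrev Sx := MvPolynomial (Fin 3) ℂ

/-! ### Nullstellensatz -/

theorem pow_mem_of_zeros' {k : ℕ} (I : Ideal (MvPolynomial (Fin k) ℂ))
    (h : ∀ v : Fin k → ℂ, (∀ G ∈ I, eval v G = 0) → v = 0) {P : MvPolynomial (Fin k) ℂ}
    (hP : eval 0 P = 0) : ∃ N, P ^ N ∈ I := by
  have h1 : P ∈ vanishingIdeal ℂ (zeroLocus ℂ I) := by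
    rw [mem_vanishingIdeal_iff]
    intro v hv
    have : v = 0 := h v (fun G hG => by
      rw [mem_zeroLocus_iff] at hv
      have := hv G hG
      rw [← coe_aeval_eq_eval]
      exact this)
    rw [this]
    rw [← coe_aeval_eq_eval] at hP
    exact hP
  rw [vanishingIdeal_zeroLocus_eq_radical] at h1
  exact h1

theorem pow_mem_of_zeros {k : ℕ} (I : Ideal (MvPolynomial (Fin k) ℂ))
    (h : ∀ v : Fin k → ℂ, (∀ G ∈ I, eval v G = 0) → v = 0) (i : Fin k) : ∃ N, X i ^ N ∈ I :=
  pow_mem_of_zeros' I h (by simp)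

/-- A nonunit polynomial in at least two variables has a nonzero zero. -/
theorem exists_zero_of_not_isUnit {k : ℕ} {D : MvPolynomial (Fin (k + 2)) ℂ} (hD : ¬ IsUnit D) :
    ∃ v : Fin (k + 2) → ℂ, v ≠ 0 ∧ eval v D = 0 := by
  by_contra hcon
  push Not at hcon
  have key : ∀ v : Fin (k + 2) → ℂ, (∀ G ∈ Ideal.span {D}, eval v G = 0) → v = 0 := by
    intro v hv
    by_contra hv0
    exact hcon v hv0 (hv D (Ideal.subset_span rfl))
  obtain ⟨N, hN⟩ := pow_mem_of_zeros _ key 0
  obtain ⟨M, hM⟩ := pow_mem_of_zeros _ key 1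
  rw [Ideal.mem_span_singleton] at hN hM
  have hrel : IsRelPrime ((X 0 : MvPolynomial (Fin (k + 2)) ℂ) ^ N) (X 1 ^ M) := by
    apply IsRelPrime.pow
    have hp : Prime (X 0 : MvPolynomial (Fin (k + 2)) ℂ) := MvPolynomial.X_prime
    rw [hp.irreducible.isRelPrime_iff_not_dvd]
    rw [MvPolynomial.X_dvd_X]
    simp
  exact hD (hrel hN hM)

/-! ### Homogeneity -/

theorem homog_of_dvd {σ : Type*} [Finite σ] {F G : MvPolynomial σ ℂ} {n : ℕ}
    (hF : F.IsHomogeneous n) (hF0 : F ≠ 0) (h : G ∣ F) : G.IsHomogeneous G.totalDegree := by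
  obtain ⟨K, rfl⟩ := h
  have hG0 : G ≠ 0 := left_ne_zero_of_mul hF0
  have hK0 : K ≠ 0 := right_ne_zero_of_mul hF0
  have hle : ∀ P : MvPolynomial σ ℂ, P ≠ 0 → (P : MvPowerSeries σ ℂ).order ≤ P.totalDegree := by
    intro P hP
    obtain ⟨d, hd⟩ := MvPolynomial.ne_zero_iff.1 hP
    have h1 : (P : MvPowerSeries σ ℂ).order ≤ (d.degree : ℕ∞) :=
      MvPowerSeries.order_le (by simpa using hd)
    refine h1.trans ?_
    have h2 : d.degree ≤ P.totalDegree := by
      have := MvPolynomial.le_totalDegree (p := P) (s := d) (MvPolynomial.mem_support_iff.2 hd)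
      simpa [Finsupp.degree_apply, Finsupp.sum] using this
    exact_mod_cast h2
  have hmul : ((G * K : MvPolynomial σ ℂ) : MvPowerSeries σ ℂ).order =
      (G : MvPowerSeries σ ℂ).order + (K : MvPowerSeries σ ℂ).order := by
    rw [MvPolynomial.coe_mul, MvPowerSeries.order_mul]
  have hFo : (n : ℕ∞) ≤ ((G * K : MvPolynomial σ ℂ) : MvPowerSeries σ ℂ).order := by
    apply MvPowerSeries.nat_le_order
    intro d hd
    rw [MvPolynomial.coeff_coe]
    by_contra hne
    have := hF hne
    have h' : d.degree = n := by rw [← this, Finsupp.degree_eq_weight_one]; rfl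
    omega
  have hT : (G * K).totalDegree = n := hF.totalDegree hF0
  rw [MvPolynomial.totalDegree_mul_of_isDomain hG0 hK0] at hT
  have hGo := hle G hG0
  have hKo := hle K hK0
  rw [hmul] at hFo
  intro d hd
  have h1 : (G : MvPowerSeries σ ℂ).order ≤ (d.degree : ℕ∞) :=
      MvPowerSeries.order_le (by simpa using hd)
  have h2 : d.degree ≤ G.totalDegree := by
      have := MvPolynomial.le_totalDegree (p := G) (s := d) (MvPolynomial.mem_support_iff.2 hd)
      simpa [Finsupp.degree_apply, Finsupp.sum] using this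
  have h3 : (n : ℕ∞) ≤ (d.degree : ℕ∞) + (K.totalDegree : ℕ∞) := hFo.trans (add_le_add h1 hKo)
  have h4 : n ≤ d.degree + K.totalDegree := by exact_mod_cast h3
  have h5 : d.degree = G.totalDegree := by omega
  rw [← h5, Finsupp.degree_eq_weight_one]
  rfl

theorem homogeneousComponent_mul_right {ι : Type*} {d n : ℕ}
    (h g : MvPolynomial ι ℂ) (hg : g.IsHomogeneous d) (hn : d ≤ n) :
    homogeneousComponent n (h * g) = homogeneousComponent (n - d) h * g := by
  conv_lhs => rw [← sum_homogeneousComponent h, Finset.sum_mul, map_sum]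
  have h1 : ∀ i, homogeneousComponent n (homogeneousComponent i h * g) =
      if i = n - d then homogeneousComponent i h * g else 0 := by
    intro i
    rw [homogeneousComponent_of_mem (n := i + d)
      ((homogeneousComponent_isHomogeneous i h).mul hg)]
    by_cases hi : i = n - d
    · rw [if_pos hi, if_pos (by omega)]
    · rw [if_neg hi, if_neg (by omega)]
  simp only [h1, Finset.sum_ite_eq']
  split_ifs with h2
  · rfl
  · rw [homogeneousComponent_eq_zero (n - d) h (by
      rw [Finset.mem_range] at h2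
      omega), zero_mul]

theorem homogeneousComponent_mul_right_lt {ι : Type*} {d n : ℕ}
    (h g : MvPolynomial ι ℂ) (hg : g.IsHomogeneous d) (hn : n < d) :
    homogeneousComponent n (h * g) = 0 := by
  conv_lhs => rw [← sum_homogeneousComponent h, Finset.sum_mul, map_sum]
  refine Finset.sum_eq_zero fun i _ => ?_
  rw [homogeneousComponent_of_mem (n := i + d)
      ((homogeneousComponent_isHomogeneous i h).mul hg), if_neg (by omega)]

/-! ### Dimensions -/

theorem hom_eq_span (n : ℕ) :
    homogeneousSubmodule (Fin 3) ℂ n =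
      Submodule.span ℂ (Set.range fun d : {d : Fin 3 →₀ ℕ // d ∈ Finset.finsuppAntidiag Finset.univ n} =>
        (monomial d.1 (1 : ℂ) : Sx)) := by
  have hdeg : ∀ d : Fin 3 →₀ ℕ, d ∈ Finset.finsuppAntidiag Finset.univ n ↔ d.degree = n := by
    intro d
    rw [Finset.mem_finsuppAntidiag]
    constructor
    · rintro ⟨h, -⟩
      rw [Finsupp.degree_eq_sum]; exact h
    · intro h
      rw [Finsupp.degree_eq_sum] at h
      exact ⟨h, Finset.subset_univ _⟩
  apply le_antisymm
  · intro p hp
    rw [mem_homogeneousSubmodule] at hp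
    rw [← support_sum_monomial_coeff p]
    refine Submodule.sum_mem _ fun d hd => ?_
    have hd' : d.degree = n := by
      by_contra hne
      exact (mem_support_iff.mp hd) (hp.coeff_eq_zero hne)
    have : (monomial d (coeff d p) : Sx) = coeff d p • monomial d (1 : ℂ) := by
      rw [smul_monomial, smul_eq_mul, mul_one]
    rw [this]
    exact Submodule.smul_mem _ _ (Submodule.subset_span ⟨⟨d, (hdeg d).mpr hd'⟩, rfl⟩)
  · rw [Submodule.span_le]
    rintro _ ⟨d, rfl⟩
    exact isHomogeneous_monomial _ ((hdeg d.1).mp d.2)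

theorem li_mon (n : ℕ) :
    LinearIndependent ℂ (fun d : {d : Fin 3 →₀ ℕ // d ∈ Finset.finsuppAntidiag Finset.univ n} =>
        (monomial d.1 (1 : ℂ) : Sx)) := by
  have h := (basisMonomials (Fin 3) ℂ).linearIndependent
  have h2 := h.comp (fun d : {d : Fin 3 →₀ ℕ // d ∈ Finset.finsuppAntidiag Finset.univ n} => d.1)
    Subtype.val_injective
  have h3 : ((basisMonomials (Fin 3) ℂ : (Fin 3 →₀ ℕ) → Sx) ∘
      fun d : {d : Fin 3 →₀ ℕ // d ∈ Finset.finsuppAntidiag Finset.univ n} => d.1) =
      fun d => (monomial d.1 (1 : ℂ) : Sx) := by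
    funext d
    simp
  rwa [h3] at h2

instance finite_hom (n : ℕ) : Module.Finite ℂ (homogeneousSubmodule (Fin 3) ℂ n) := by
  rw [hom_eq_span]
  exact Module.Finite.span_of_finite ℂ (Set.finite_range _)

theorem finrank_hom (n : ℕ) :
    Module.finrank ℂ (homogeneousSubmodule (Fin 3) ℂ n) = (n + 2).choose 2 := by
  rw [hom_eq_span, finrank_span_eq_card (li_mon n), Fintype.card_coe,
    Finset.card_finsuppAntidiag_nat_eq_choose]
  have h1 : (Finset.univ : Finset (Fin 3)).card + n - 1 = n + 2 := by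
    rw [Finset.card_univ, Fintype.card_fin]; omega
  rw [h1, ← Nat.choose_symm_add]

/-- a subspace of forms of degree `n` is finite-dimensional -/
theorem finite_of_le {n : ℕ} {W : Submodule ℂ Sx} (h : W ≤ homogeneousSubmodule (Fin 3) ℂ n) :
    Module.Finite ℂ W := by
  exact Submodule.finiteDimensional_of_le h

/-! ### Common zeros -/

theorem exists_common_zero {ι κ : Type*} [Fintype ι]
    [Fintype κ] (hcard : Fintype.card κ < Fintype.card ι) (f : κ → MvPolynomial ι ℂ)
    (h0 : ∀ k, eval 0 (f k) = 0) : ∃ x : ι → ℂ, x ≠ 0 ∧ ∀ k, eval x (f k) = 0 := by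
  classical
  by_contra hcon
  push Not at hcon
  have hcon' : ∀ x : ι → ℂ, (∀ k, eval x (f k) = 0) → x = 0 := by
    intro x hx
    by_contra hx0
    obtain ⟨k, hk⟩ := hcon x hx0
    exact hk (hx k)
  set I : Ideal (MvPolynomial ι ℂ) := Ideal.span (Finset.univ.image f : Finset _) with hI
  have hzl : zeroLocus ℂ I = {0} := by
    rw [hI, zeroLocus_span]
    ext x
    simp only [Finset.coe_image, Finset.coe_univ, Set.image_univ, Set.mem_range,
      forall_exists_index, forall_apply_eq_imp_iff, Set.mem_singleton_iff, Set.mem_ofPred_eq]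
    constructor
    · intro h
      exact hcon' x (fun k => by rw [← coe_aeval_eq_eval]; exact h k)
    · rintro rfl k
      have := h0 k
      rw [← coe_aeval_eq_eval] at this
      exact this
  set m0 : Ideal (MvPolynomial ι ℂ) := vanishingIdeal ℂ {(0 : ι → ℂ)} with hm0
  have hrad : I.radical = m0 := by
    rw [← vanishingIdeal_zeroLocus_eq_radical (K := ℂ), hzl]
  have hmax : m0.IsMaximal := isMaximal_iff_eq_vanishingIdeal_singleton.mpr ⟨0, rfl⟩
  have hmin : m0 ∈ I.minimalPrimes := by
    refine ⟨⟨hmax.isPrime, ?_⟩, ?_⟩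
    · rw [← hrad]; exact Ideal.le_radical
    · rintro q ⟨hq, hIq⟩ _
      rw [← hrad]
      exact (hq.radical_le_iff).mpr hIq
  have hh0 : m0.height ≤ (Fintype.card κ : ℕ) := by
    refine (Ideal.height_le_card_of_mem_minimalPrimes_span_finset hmin).trans ?_
    exact_mod_cast Finset.card_image_le
  have hdim : ringKrullDim (MvPolynomial ι ℂ) ≤ (Fintype.card κ : ℕ) := by
    have : ((Fintype.card κ : ℕ) : WithBot ℕ∞) = ((Fintype.card κ : ℕ∞) : WithBot ℕ∞) := rfl
    rw [this, ringKrullDim_le_iff_isMaximal_height_le]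
    intro m hm
    obtain ⟨a, rfl⟩ := isMaximal_iff_eq_vanishingIdeal_singleton.mp hm
    -- translation
    let φ : MvPolynomial ι ℂ →ₐ[ℂ] MvPolynomial ι ℂ := aeval (fun i => X i + C (a i))
    let ψ : MvPolynomial ι ℂ →ₐ[ℂ] MvPolynomial ι ℂ := aeval (fun i => X i - C (a i))
    have h1 : φ.comp ψ = AlgHom.id ℂ _ := by
      ext i
      simp [φ, ψ]
    have h2 : ψ.comp φ = AlgHom.id ℂ _ := by
      ext i
      simp [φ, ψ]
    let e : MvPolynomial ι ℂ ≃ₐ[ℂ] MvPolynomial ι ℂ := AlgEquiv.ofAlgHom φ ψ h1 h2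
    have h3 : vanishingIdeal ℂ {a} = m0.comap (e.toRingEquiv : MvPolynomial ι ℂ ≃+* _) := by
      ext p
      rw [Ideal.mem_comap, hm0, mem_vanishingIdeal_singleton_iff, mem_vanishingIdeal_singleton_iff]
      have h4 := comp_aeval_apply (f := fun i => (X i + C (a i) : MvPolynomial ι ℂ))
        (aeval (0 : ι → ℂ) : MvPolynomial ι ℂ →ₐ[ℂ] ℂ) p
      have h5 : (e.toRingEquiv p : MvPolynomial ι ℂ) = φ p := rfl
      have h6 : (aeval (0 : ι → ℂ) (φ p) : ℂ) = aeval a p := by
        rw [h4]
        congr 2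
        funext i
        simp
      change _ ↔ aeval 0 (φ p) = 0
      rw [h6]
    rw [h3, RingEquiv.height_comap]
    exact_mod_cast hh0
  rw [MvPolynomial.ringKrullDim_of_isNoetherianRing, ringKrullDim_eq_zero_of_field, zero_add,
    Nat.card_eq_fintype_card] at hdim
  have : Fintype.card ι ≤ Fintype.card κ := by exact_mod_cast hdim
  omega

end Pool.Agent.TH166.TP
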