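import Mathlib
import Pool.Agent.TH166.TP.A

set_option autoImplicit false

/-!
# Smooth plane curves: irreducibility, the ideal `(G, F)` and its Hilbert function
-/

open MvPolynomial

namespace Pool.Agent.TH166.TP

/-- a nonsingular plane curve of positive degree, given by a form -/
structure Curve where
  /-- degree -/
  m : ℕ
  /-- equation -/
  F : Sx
  hm : 0 < m
  hF : F.IsHomogeneous m
  ns : ∀ v : Fin 3 → ℂ, v ≠ 0 → eval v F = 0 → ∃ i, eval v (pderiv i F) ≠ 0

theorem eval_zero_of_homog {k n : ℕ} (hn : 0 < n) {G : MvPolynomial (Fin k) ℂ}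
    (hG : G.IsHomogeneous n) : eval 0 G = 0 := by
  rw [← coe_aeval_eq_eval]
  have : (aeval (0 : Fin k → ℂ)) G = coeff 0 G := by
    simp [aeval_def, MvPolynomial.eval₂_zero_apply, constantCoeff_eq]
  have h0 : coeff 0 G = 0 := by
    apply hG.coeff_eq_zero
    simp
    omega
  rw [← h0]
  exact this

theorem isUnit_of_homog_zero {k : ℕ} {G : MvPolynomial (Fin k) ℂ} (hG : G.IsHomogeneous 0)
    (h0 : G ≠ 0) : IsUnit G := by
  rw [← totalDegree_zero_iff_isHomogeneous, totalDegree_eq_zero_iff_eq_C] at hG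
  rw [hG] at h0 ⊢
  apply IsUnit.map
  rw [isUnit_iff_ne_zero]
  intro h
  rw [h] at h0
  simp at h0

namespace Curve

variable (Γ : Curve)

theorem F_ne : Γ.F ≠ 0 := by
  intro h
  obtain ⟨i, hi⟩ := Γ.ns 1 one_ne_zero (by rw [h]; simp)
  rw [h] at hi
  simp at hi

theorem not_isUnit : ¬ IsUnit Γ.F := by
  intro h
  obtain ⟨c, hc, hc'⟩ := (MvPolynomial.isUnit_iff_eq_C_of_isReduced).1 h
  have h1 : Γ.F.IsHomogeneous 0 := by
    rw [hc']; exact isHomogeneous_C _ _
  have := Γ.hF.inj_right h1 Γ.F_ne
  have := Γ.hm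
  omega

theorem irreducible : Irreducible Γ.F := by
  refine ⟨Γ.not_isUnit, fun {G H} hGH => ?_⟩
  by_contra hcon
  push Not at hcon
  obtain ⟨hG, hH⟩ := hcon
  have hF0 := Γ.F_ne
  have hG0 : G ≠ 0 := by
    rintro rfl
    rw [zero_mul] at hGH
    exact hF0 hGH
  have hH0 : H ≠ 0 := by
    rintro rfl
    rw [mul_zero] at hGH
    exact hF0 hGH
  have hGh := homog_of_dvd Γ.hF hF0 (Dvd.intro _ hGH.symm)
  have hHh := homog_of_dvd Γ.hF hF0 (Dvd.intro_left _ hGH.symm)
  have hGp : 0 < G.totalDegree := by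
    rcases Nat.eq_zero_or_pos G.totalDegree with h | h
    · rw [h] at hGh
      exact absurd (isUnit_of_homog_zero hGh hG0) hG
    · exact h
  have hHp : 0 < H.totalDegree := by
    rcases Nat.eq_zero_or_pos H.totalDegree with h | h
    · rw [h] at hHh
      exact absurd (isUnit_of_homog_zero hHh hH0) hH
    · exact h
  obtain ⟨v, hv, hv'⟩ := exists_common_zero (ι := Fin 3) (κ := Bool) (by simp)
    (fun b => if b then G else H) (by
      intro b
      cases b
      · simpa using eval_zero_of_homog hHp hHh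
      · simpa using eval_zero_of_homog hGp hGh)
  have h1 : eval v G = 0 := by simpa using hv' true
  have h2 : eval v H = 0 := by simpa using hv' false
  obtain ⟨i, hi⟩ := Γ.ns v hv (by rw [hGH]; simp [h1])
  apply hi
  rw [hGH]
  simp [Derivation.leibniz, h1, h2]

theorem prime : Prime Γ.F := Γ.irreducible.prime

theorem isRelPrime {G : Sx} (hG : ¬ Γ.F ∣ G) : IsRelPrime G Γ.F :=
  ((Γ.irreducible.isRelPrime_iff_not_dvd).2 hG).symm

/-- the ideal `(G, F)` -/
noncomputable def idl (G : Sx) : Ideal Sx := Ideal.span {G, Γ.F}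

theorem mem_idl {G B : Sx} : B ∈ Γ.idl G ↔ ∃ u w, u * G + w * Γ.F = B := Ideal.mem_span_pair

theorem mem_idl_homog {G B : Sx} {d n : ℕ} (hG : G.IsHomogeneous d) (hB : B.IsHomogeneous n)
    (hd : d ≤ n) (hn : Γ.m ≤ n) (h : B ∈ Γ.idl G) :
    ∃ u w : Sx, u.IsHomogeneous (n - d) ∧ w.IsHomogeneous (n - Γ.m) ∧ u * G + w * Γ.F = B := by
  obtain ⟨u, w, rfl⟩ := Γ.mem_idl.1 h
  refine ⟨homogeneousComponent (n - d) u, homogeneousComponent (n - Γ.m) w,
    homogeneousComponent_isHomogeneous _ _, homogeneousComponent_isHomogeneous _ _, ?_⟩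
  have := homogeneousComponent_eq_self hB
  rw [map_add, homogeneousComponent_mul_right _ _ hG hd,
    homogeneousComponent_mul_right _ _ Γ.hF hn] at this
  exact this

/-- forms of degree `n` -/
abbrev Hn (n : ℕ) : Submodule ℂ Sx := homogeneousSubmodule (Fin 3) ℂ n

/-- forms of degree `n` in the ideal `(G, F)` -/
noncomputable def J (G : Sx) (n : ℕ) : Submodule ℂ Sx :=
  Hn n ⊓ (Γ.idl G).restrictScalars ℂ

theorem mem_J {G B : Sx} {n : ℕ} : B ∈ Γ.J G n ↔ B.IsHomogeneous n ∧ B ∈ Γ.idl G := Iff.rfl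

end Curve

theorem tri (n : ℕ) : 2 * (n + 2).choose 2 = (n + 2) * (n + 1) := by
  rw [Nat.choose_two_right]
  have h : (n + 2) * (n + 2 - 1) = (n + 2) * (n + 1) := by congr 1
  rw [h]
  have h2 : Even ((n + 2) * (n + 1)) := by
    rw [mul_comm]; exact Nat.even_mul_succ_self (n + 1)
  exact Nat.two_mul_div_two_of_even h2

theorem choose_id (d m j : ℕ) : (d + m + j + 2).choose 2 + (j + 2).choose 2 =
    (d + j + 2).choose 2 + (m + j + 2).choose 2 + d * m := by
  have h1 := tri (d + m + j)
  have h2 := tri j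
  have h3 := tri (d + j)
  have h4 := tri (m + j)
  nlinarith

/-- the genus -/
def Curve.g (Γ : Curve) : ℕ := (Γ.m - 1).choose 2

theorem genus_id {m : ℕ} (hm : 0 < m) (j : ℕ) :
    (m + j + 2).choose 2 + (m - 1).choose 2 = (j + 2).choose 2 + m * (m + j) + 1 := by
  obtain ⟨k, rfl⟩ : ∃ k, m = k + 1 := ⟨m - 1, by omega⟩
  rw [Nat.add_sub_cancel]
  have h1 := tri (k + 1 + j)
  have h2 := tri j
  have h3 : 2 * k.choose 2 + k = k * k := by
    rw [Nat.choose_two_right]
    have h : 2 * (k * (k - 1) / 2) = k * (k - 1) := by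
      apply Nat.two_mul_div_two_of_even
      exact Nat.even_mul_pred_self k
    rw [h]
    rcases k with _ | k
    · rfl
    · simp; ring
  nlinarith

namespace Curve

variable (Γ : Curve)

theorem finrank_J {G : Sx} {d : ℕ} (hG : G.IsHomogeneous d) (hGF : ¬ Γ.F ∣ G) (j : ℕ) :
    Module.finrank ℂ (Γ.J G (d + Γ.m + j)) + d * Γ.m = (d + Γ.m + j + 2).choose 2 := by
  classical
  have hrel := Γ.isRelPrime hGF
  have hG0 : G ≠ 0 := by
    rintro rfl
    exact hGF (dvd_zero _)
  let Φ : (Hn (Γ.m + j) × Hn (d + j)) →ₗ[ℂ] Sx :=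
    { toFun := fun p => p.1.1 * G + p.2.1 * Γ.F
      map_add' := by
        intro p q
        simp only [Prod.fst_add, Submodule.coe_add, Prod.snd_add]
        ring
      map_smul' := by
        intro c p
        simp only [Prod.smul_fst, Submodule.coe_smul, Prod.smul_snd, RingHom.id_apply, smul_add,
          Algebra.smul_mul_assoc] }
  have hrange : LinearMap.range Φ = Γ.J G (d + Γ.m + j) := by
    ext B
    rw [LinearMap.mem_range, mem_J]
    constructor
    · rintro ⟨⟨u, w⟩, rfl⟩
      refine ⟨?_, Γ.mem_idl.2 ⟨u.1, w.1, rfl⟩⟩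
      have h1 : (u.1 * G).IsHomogeneous (d + Γ.m + j) := by
        have := (show u.1.IsHomogeneous (Γ.m + j) from u.2).mul hG
        convert this using 1
        ring
      have h2 : (w.1 * Γ.F).IsHomogeneous (d + Γ.m + j) := by
        have := (show w.1.IsHomogeneous (d + j) from w.2).mul Γ.hF
        convert this using 1
        ring
      exact h1.add h2
    · rintro ⟨hB, hB'⟩
      obtain ⟨u, w, hu, hw, h⟩ := Γ.mem_idl_homog hG hB (by omega) (by omega) hB'
      have e1 : d + Γ.m + j - d = Γ.m + j := by omega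
      have e2 : d + Γ.m + j - Γ.m = d + j := by omega
      rw [e1] at hu
      rw [e2] at hw
      exact ⟨⟨⟨u, hu⟩, ⟨w, hw⟩⟩, h⟩
  let Ψ : Hn j →ₗ[ℂ] (Hn (Γ.m + j) × Hn (d + j)) :=
    { toFun := fun t => ⟨⟨t.1 * Γ.F, by
          have := (show t.1.IsHomogeneous j from t.2).mul Γ.hF
          rw [add_comm] at this
          exact this⟩, ⟨-(t.1 * G), by
          have := ((show t.1.IsHomogeneous j from t.2).mul hG).neg
          rw [add_comm] at this
          exact this⟩⟩
      map_add' := by
        intro p q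
        refine Prod.ext (Subtype.ext ?_) (Subtype.ext ?_)
        · show (p.1 + q.1) * Γ.F = p.1 * Γ.F + q.1 * Γ.F
          ring
        · show -((p.1 + q.1) * G) = -(p.1 * G) + -(q.1 * G)
          ring
      map_smul' := by
        intro c p
        refine Prod.ext (Subtype.ext ?_) (Subtype.ext ?_)
        · show (c • p.1) * Γ.F = c • (p.1 * Γ.F)
          rw [smul_mul_assoc]
        · show -((c • p.1) * G) = c • (-(p.1 * G))
          rw [smul_mul_assoc, smul_neg] }
  have hΨinj : Function.Injective Ψ := by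
    intro a b hab
    have h1 := congrArg (fun p => (p.1.1 : Sx)) hab
    simp only [Ψ, LinearMap.coe_mk, AddHom.coe_mk] at h1
    exact Subtype.ext (mul_right_cancel₀ Γ.F_ne h1)
  have hker : LinearMap.range Ψ = LinearMap.ker Φ := by
    ext ⟨u, w⟩
    rw [LinearMap.mem_range, LinearMap.mem_ker]
    constructor
    · rintro ⟨t, ht⟩
      rw [← ht]
      simp only [Φ, Ψ, LinearMap.coe_mk, AddHom.coe_mk]
      ring
    · intro h
      have h' : u.1 * G + w.1 * Γ.F = 0 := h
      have hdvd : Γ.F ∣ u.1 := by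
        apply hrel.symm.dvd_of_dvd_mul_right
        refine ⟨-w.1, ?_⟩
        linear_combination h'
      by_cases hu0 : u.1 = 0
      · have hw0 : w.1 = 0 := by
          rw [hu0, zero_mul, zero_add] at h'
          exact (mul_eq_zero.1 h').resolve_right Γ.F_ne
        refine ⟨0, ?_⟩
        rw [map_zero]
        ext <;> simp [hu0, hw0]
      · obtain ⟨t, ht⟩ := hdvd
        have htdvd : t ∣ u.1 := Dvd.intro_left _ ht.symm
        have hth := homog_of_dvd (show u.1.IsHomogeneous (Γ.m + j) from u.2) hu0 htdvd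
        have hdeg : t.totalDegree = j := by
          have h1 : u.1.IsHomogeneous (Γ.m + t.totalDegree) := by
            rw [ht]
            exact Γ.hF.mul hth
          have := h1.inj_right (show u.1.IsHomogeneous (Γ.m + j) from u.2) hu0
          omega
        rw [hdeg] at hth
        refine ⟨⟨t, hth⟩, ?_⟩
        have hw : w.1 = -(t * G) := by
          apply mul_right_cancel₀ Γ.F_ne
          rw [ht] at h'
          linear_combination h'
        apply Prod.ext
        · apply Subtype.ext
          show t * Γ.F = u.1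
          rw [ht, mul_comm]
        · apply Subtype.ext
          show -(t * G) = w.1
          exact hw.symm
  have h1 := LinearMap.finrank_range_add_finrank_ker Φ
  rw [hrange, ← hker, LinearMap.finrank_range_of_inj hΨinj, Module.finrank_prod, finrank_hom,
    finrank_hom, finrank_hom] at h1
  have h2 := choose_id d Γ.m j
  omega

end Curve

end Pool.Agent.TH166.TP
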