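import Mathlib
import Pool.Agent.TH166.TP.B

set_option autoImplicit false

/-!
# Local parameters on smooth plane curves
-/

open MvPolynomial Filter Topology
open scoped ContDiff

namespace Pool.Agent.TH166.TP

/-! ### A two-variable implicit function theorem -/

theorem ift2 {f : ℂ × ℂ → ℂ} (hf : ContDiffAt ℂ ω f (0, 0)) (h0 : f (0, 0) = 0)
    (hd : fderiv ℂ f (0, 0) (0, 1) ≠ 0) :
    ∃ θ : ℂ → ℂ, AnalyticAt ℂ θ 0 ∧ θ 0 = 0 ∧ (∀ᶠ x in 𝓝 0, f (x, θ x) = 0) ∧
      ∀ᶠ p in 𝓝 ((0 : ℂ), (0 : ℂ)), f p = 0 → θ p.1 = p.2 := by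
  have pn : (ω : ℕ∞ω) ≠ 0 := by simp
  have if₂ : (fderiv ℂ f (0, 0) ∘L .inr ℂ ℂ ℂ).IsInvertible := by
    refine ⟨ContinuousLinearEquiv.unitsEquivAut ℂ (Units.mk0 _ hd), ?_⟩
    ext
    simp
  refine ⟨hf.implicitFunction pn if₂, ?_, ?_, ?_, ?_⟩
  · exact (hf.contDiffAt_implicitFunction pn if₂).analyticAt
  · exact hf.implicitFunction_apply_self pn if₂
  · have := hf.eventually_apply_implicitFunction pn if₂
    rw [h0] at this
    exact this
  · have := hf.eventually_apply_eq_iff_implicitFunction pn if₂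
    rw [h0] at this
    filter_upwards [this] with p hp h
    exact hp.1 h

/-! ### Derivatives of polynomials -/

theorem hasDerivAt_eval {u : ℂ → Fin 3 → ℂ} {u' : Fin 3 → ℂ} {t : ℂ}
    (hu : ∀ a, HasDerivAt (fun s => u s a) (u' a) t) (P : Sx) :
    HasDerivAt (fun s => eval (u s) P) (∑ a, u' a * eval (u t) (pderiv a P)) t := by
  induction P using MvPolynomial.induction_on with
  | C c => simpa using hasDerivAt_const t c
  | add p q hp hq =>
    have h1 : (fun s => eval (u s) (p + q)) = fun s => eval (u s) p + eval (u s) q := by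
      funext s; simp
    rw [h1]
    refine (hp.fun_add hq).congr_deriv ?_
    rw [← Finset.sum_add_distrib]
    refine Finset.sum_congr rfl fun a _ => ?_
    simp [mul_add]
  | mul_X p n hp =>
    have h1 : (fun s => eval (u s) (p * X n)) = fun s => eval (u s) p * u s n := by
      funext s; simp
    rw [h1]
    refine (hp.fun_mul (hu n)).congr_deriv ?_
    simp only [Derivation.leibniz, smul_eq_mul, pderiv_X, map_add, map_mul, eval_X]
    rw [Finset.sum_mul]
    simp only [mul_add]
    rw [Finset.sum_add_distrib, add_comm]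
    congr 1
    · rw [Finset.sum_eq_single n]
      · simp; ring
      · intro b _ hb
        rw [Pi.single_eq_of_ne (Ne.symm hb)]
        simp
      · simp
    · refine Finset.sum_congr rfl fun a _ => ?_
      ring

theorem analyticAt_eval {E : Type*} [NormedAddCommGroup E] [NormedSpace ℂ E]
    {u : E → Fin 3 → ℂ} {t : E} (hu : ∀ a, AnalyticAt ℂ (fun s => u s a) t) (P : Sx) :
    AnalyticAt ℂ (fun s => eval (u s) P) t := by
  have := AnalyticAt.aeval_mvPolynomial (𝕜 := ℂ) (f := u) (z := t) hu P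
  simpa [MvPolynomial.aeval_eq_eval] using this

theorem aeval_homog {k n : ℕ} {G : MvPolynomial (Fin k) ℂ} (hG : G.IsHomogeneous n)
    {A : Type*} [CommRing A] [Algebra ℂ A] (w : Fin k → ℂ) (y : A) :
    aeval (fun a => algebraMap ℂ A (w a) * y) G = algebraMap ℂ A (eval w G) * y ^ n := by
  rw [aeval_def, eval₂_eq', eval_eq', map_sum, Finset.sum_mul]
  refine Finset.sum_congr rfl fun d hd => ?_
  have hdeg : ∑ a, d a = n := by
    have := hG (mem_support_iff.1 hd)
    rw [← this, ← Finsupp.degree_eq_sum, Finsupp.degree_eq_weight_one]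
    rfl
  rw [map_mul, map_prod, mul_assoc]
  congr 1
  rw [← hdeg, ← Finset.prod_pow_eq_pow_sum, ← Finset.prod_mul_distrib]
  refine Finset.prod_congr rfl fun a _ => ?_
  rw [mul_pow, map_pow]

theorem eval_smul {k n : ℕ} {G : MvPolynomial (Fin k) ℂ} (hG : G.IsHomogeneous n)
    (c : ℂ) (w : Fin k → ℂ) : eval (c • w) G = c ^ n * eval w G := by
  have := aeval_homog hG (A := ℂ) w c
  simp only [Algebra.algebraMap_self, RingHom.id_apply] at this
  rw [mul_comm, ← this, aeval_eq_eval]
  congr 2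
  funext a
  simp [mul_comm]

/-! ### Charts -/

/-- combinatorial data for a local parameter at the vector `v` on the cone over the curve -/
structure Chart (Γ : Curve) (v : Fin 3 → ℂ) where
  /-- the coordinate which is normalised -/
  i : Fin 3
  /-- the dependent coordinate -/
  j : Fin 3
  /-- the local parameter -/
  k : Fin 3
  hij : i ≠ j
  hik : i ≠ k
  hjk : j ≠ k
  vi : v i ≠ 0
  dj : eval v (pderiv j Γ.F) ≠ 0

theorem exists_chart (Γ : Curve) {v : Fin 3 → ℂ} (hv : v ≠ 0) (hF : eval v Γ.F = 0) :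
    Nonempty (Chart Γ v) := by
  obtain ⟨i, hi⟩ : ∃ i, v i ≠ 0 := by
    by_contra hcon
    push Not at hcon
    exact hv (funext hcon)
  obtain ⟨a, ha⟩ := Γ.ns v hv hF
  obtain ⟨j, hji, hj⟩ : ∃ j, i ≠ j ∧ eval v (pderiv j Γ.F) ≠ 0 := by
    by_contra hcon
    push Not at hcon
    have heul : ∑ b, v b * eval v (pderiv b Γ.F) = 0 := by
      have h1 := congrArg (eval v) (Γ.hF.sum_X_mul_pderiv)
      simp only [map_sum, map_mul, eval_X, map_nsmul, hF, smul_zero] at h1
      exact h1
    rw [Finset.sum_eq_single i] at heul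
    · have : eval v (pderiv i Γ.F) = 0 := (mul_eq_zero.1 heul).resolve_left hi
      by_cases hai : i = a
      · rw [hai] at this; exact ha this
      · exact ha (hcon a hai)
    · intro b _ hb
      rw [hcon b (Ne.symm hb), mul_zero]
    · simp
  obtain ⟨k, hik, hjk⟩ : ∃ k, i ≠ k ∧ j ≠ k := by
    have : ∀ i j : Fin 3, i ≠ j → ∃ k, i ≠ k ∧ j ≠ k := by decide
    exact this i j hji
  exact ⟨⟨i, j, k, hji, hik, hjk, hi, hj⟩⟩

namespace Chart

variable {Γ : Curve} {v : Fin 3 → ℂ} (ch : Chart Γ v)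

theorem cases (a : Fin 3) : a = ch.i ∨ a = ch.j ∨ a = ch.k := by
  have h1 := ch.hij
  have h2 := ch.hik
  have h3 := ch.hjk
  generalize ch.i = i at *
  generalize ch.j = j at *
  generalize ch.k = k at *
  revert h1 h2 h3
  revert i j k a
  decide

theorem exists_param (hF : eval v Γ.F = 0) : ∃ γ : ℂ → Fin 3 → ℂ,
    (∀ a, AnalyticAt ℂ (fun τ => γ τ a) 0) ∧ γ 0 = v ∧ (∀ τ, γ τ ch.i = v ch.i) ∧
    (∀ τ, γ τ ch.k = v ch.k + τ) ∧ (∀ᶠ τ in 𝓝 0, eval (γ τ) Γ.F = 0) ∧
    ∀ᶠ w in 𝓝 v, eval w Γ.F = 0 →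
      w = (w ch.i / v ch.i) • γ (w ch.k * (v ch.i / w ch.i) - v ch.k) := by
  have hij := ch.hij
  have hik := ch.hik
  have hjk := ch.hjk
  have hvi := ch.vi
  let u : ℂ × ℂ → Fin 3 → ℂ := fun p a =>
    v a + (if a = ch.k then p.1 else 0) + (if a = ch.j then p.2 else 0)
  let f : ℂ × ℂ → ℂ := fun p => eval (u p) Γ.F
  have hu : ∀ p a, AnalyticAt ℂ (fun s => u s a) p := by
    intro p a
    simp only [u]
    have h1 : AnalyticAt ℂ (fun s : ℂ × ℂ => if a = ch.k then s.1 else 0) p := by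
      split_ifs
      · exact analyticAt_fst
      · exact analyticAt_const
    have h2 : AnalyticAt ℂ (fun s : ℂ × ℂ => if a = ch.j then s.2 else 0) p := by
      split_ifs
      · exact analyticAt_snd
      · exact analyticAt_const
    exact (analyticAt_const.add h1).add h2
  have hfa : AnalyticAt ℂ f (0, 0) := analyticAt_eval (hu (0, 0)) Γ.F
  have hu0 : u (0, 0) = v := by
    funext a
    simp [u]
  have hf0 : f (0, 0) = 0 := by
    simp only [f]
    rw [hu0, hF]
  have hder : fderiv ℂ f (0, 0) (0, 1) = eval v (pderiv ch.j Γ.F) := by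
    have h1 : HasDerivAt (fun y : ℂ => ((0 : ℂ), y)) ((0 : ℂ), (1 : ℂ)) 0 :=
      (hasDerivAt_const (0 : ℂ) (0 : ℂ)).prodMk (hasDerivAt_id (0 : ℂ))
    have h2 : HasDerivAt (f ∘ fun y : ℂ => ((0 : ℂ), y)) (fderiv ℂ f (0, 0) (0, 1)) 0 :=
      (hfa.differentiableAt.hasFDerivAt).comp_hasDerivAt (0 : ℂ) h1
    have h3 : HasDerivAt (fun y : ℂ => eval (u (0, y)) Γ.F)
        (∑ a, (if a = ch.j then (1 : ℂ) else 0) * eval (u (0, 0)) (pderiv a Γ.F)) 0 := by
      apply hasDerivAt_eval (u := fun y : ℂ => u (0, y))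
      intro a
      simp only [u]
      split_ifs with h h' h'
      · exact absurd (h'.symm.trans h) hjk
      · simpa using hasDerivAt_const (0 : ℂ) (v a)
      · simpa using (hasDerivAt_id (0 : ℂ)).const_add (v a)
      · simpa using hasDerivAt_const (0 : ℂ) (v a)
    have h4 := h2.unique h3
    rw [h4, hu0]
    simp
  obtain ⟨η, hη, hη0, hη1, hη2⟩ := ift2 hfa.contDiffAt hf0 (by rw [hder]; exact ch.dj)
  refine ⟨fun τ => u (τ, η τ), ?_, ?_, ?_, ?_, ?_, ?_⟩
  · intro a
    have h1 : AnalyticAt ℂ (fun τ : ℂ => (τ, η τ)) 0 := analyticAt_id.prod hη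
    exact AnalyticAt.comp (g := fun s => u s a) (f := fun τ : ℂ => (τ, η τ)) (hu (0, η 0) a) h1
  · show u (0, η 0) = v
    rw [hη0, hu0]
  · intro τ
    simp [u, hij, hik]
  · intro τ
    simp [u, hjk.symm]
  · exact hη1
  · have hcont : ContinuousAt (fun w : Fin 3 → ℂ => ((w ch.k * (v ch.i / w ch.i) - v ch.k,
        w ch.j * (v ch.i / w ch.i) - v ch.j) : ℂ × ℂ)) v := by
      have h1 : ContinuousAt (fun w : Fin 3 → ℂ => v ch.i / w ch.i) v :=
        continuousAt_const.div (continuous_apply _).continuousAt hvi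
      exact ((((continuous_apply _).continuousAt.mul h1).sub continuousAt_const)).prodMk
        (((continuous_apply _).continuousAt.mul h1).sub continuousAt_const)
    have hval : ((v ch.k * (v ch.i / v ch.i) - v ch.k,
        v ch.j * (v ch.i / v ch.i) - v ch.j) : ℂ × ℂ) = (0, 0) := by
      rw [div_self hvi]; simp
    unfold ContinuousAt at hcont
    simp only [hval] at hcont
    have hne : ∀ᶠ w : Fin 3 → ℂ in 𝓝 v, w ch.i ≠ 0 :=
      (continuous_apply ch.i).continuousAt.eventually_ne hvi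
    filter_upwards [hcont.eventually hη2, hne] with w hw hwi hFw
    have key : w = (w ch.i / v ch.i) • u (w ch.k * (v ch.i / w ch.i) - v ch.k,
        w ch.j * (v ch.i / w ch.i) - v ch.j) := by
      funext a
      rcases ch.cases a with rfl | rfl | rfl
      · simp [u, hij, hik]
        field_simp
      · simp [u, hjk]
        field_simp
      · simp [u, hjk.symm]
        field_simp
    have hFu : eval (u (w ch.k * (v ch.i / w ch.i) - v ch.k,
        w ch.j * (v ch.i / w ch.i) - v ch.j)) Γ.F = 0 := by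
      have h1 : eval w Γ.F = (w ch.i / v ch.i) ^ Γ.m * eval (u (w ch.k * (v ch.i / w ch.i) - v ch.k,
        w ch.j * (v ch.i / w ch.i) - v ch.j)) Γ.F := by
        conv_lhs => rw [key]
        exact eval_smul Γ.hF _ _
      rw [hFw] at h1
      refine (mul_eq_zero.1 h1.symm).resolve_left ?_
      exact pow_ne_zero _ (div_ne_zero hwi hvi)
    have h2 := hw hFu
    show w = (w ch.i / v ch.i) • u (w ch.k * (v ch.i / w ch.i) - v ch.k,
      η (w ch.k * (v ch.i / w ch.i) - v ch.k))
    rw [h2]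
    exact key

end Chart

end Pool.Agent.TH166.TP
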