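import Mathlib
import Pool.Agent.TH166.TP.C

set_option autoImplicit false

/-!
# The complex projective plane and the points of a smooth curve
-/

open MvPolynomial Filter Topology
open scoped LinearAlgebra.Projectivization

namespace Pool.Agent.TH166.TP

/-- the complex projective plane -/
abbrev CP2 : Type := ℙ ℂ (Fin 3 → ℂ)

/-- the quotient map to the projective plane -/
noncomputable def pr (v : {v : Fin 3 → ℂ // v ≠ 0}) : CP2 := Projectivization.mk ℂ v.1 v.2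

/-- the quotient topology on the complex projective plane -/
noncomputable instance topCP2 : TopologicalSpace CP2 :=
  TopologicalSpace.coinduced pr inferInstance

theorem continuous_pr : Continuous pr := continuous_coinduced_rng

theorem surjective_pr : Function.Surjective pr := by
  intro p
  exact ⟨⟨p.rep, p.rep_nonzero⟩, p.mk_rep⟩

theorem isOpenMap_pr : IsOpenMap pr := by
  intro s hs
  rw [isOpen_coinduced]
  have h1 : pr ⁻¹' (pr '' s) = ⋃ a : ℂˣ, {v : {v : Fin 3 → ℂ // v ≠ 0} |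
      (⟨(a : ℂ) • v.1, smul_ne_zero a.ne_zero v.2⟩ : {v : Fin 3 → ℂ // v ≠ 0}) ∈ s} := by
    ext v
    rw [Set.mem_preimage, Set.mem_image, Set.mem_iUnion]
    constructor
    · rintro ⟨w, hw, hwv⟩
      obtain ⟨a, ha⟩ := (Projectivization.mk_eq_mk_iff ℂ _ _ w.2 v.2).1 hwv
      refine ⟨a, ?_⟩
      have : (⟨(a : ℂ) • v.1, smul_ne_zero a.ne_zero v.2⟩ : {v : Fin 3 → ℂ // v ≠ 0}) = w :=
        Subtype.ext ha
      show _ ∈ s
      rw [this]
      exact hw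
    · rintro ⟨a, ha⟩
      refine ⟨_, ha, ?_⟩
      apply (Projectivization.mk_eq_mk_iff ℂ _ _ _ v.2).2
      exact ⟨a, rfl⟩
  rw [h1]
  apply isOpen_iUnion
  intro a
  apply hs.preimage
  apply Continuous.subtype_mk
  exact continuous_subtype_val.const_smul (a : ℂ)

theorem isOpenQuotientMap_pr : IsOpenQuotientMap pr :=
  ⟨surjective_pr, continuous_pr, isOpenMap_pr⟩

instance t2CP2 : T2Space CP2 := by
  refine ⟨fun p q hpq => ?_⟩
  obtain ⟨v, rfl⟩ := surjective_pr p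
  obtain ⟨w, rfl⟩ := surjective_pr q
  obtain ⟨i, j, hij⟩ : ∃ i j, v.1 i * w.1 j - v.1 j * w.1 i ≠ 0 := by
    by_contra hcon
    push Not at hcon
    apply hpq
    obtain ⟨i, hi⟩ : ∃ i, w.1 i ≠ 0 := by
      by_contra h
      push Not at h
      exact w.2 (funext h)
    apply (Projectivization.mk_eq_mk_iff' ℂ _ _ v.2 w.2).2
    refine ⟨v.1 i / w.1 i, ?_⟩
    funext j
    have := hcon i j
    simp only [Pi.smul_apply, smul_eq_mul]
    field_simp
    linear_combination this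
  have hopen : IsOpen {x : {v : Fin 3 → ℂ // v ≠ 0} × {v : Fin 3 → ℂ // v ≠ 0} |
      x.1.1 i * x.2.1 j - x.1.1 j * x.2.1 i ≠ 0} := by
    have hc : ∀ a, Continuous (fun x : {v : Fin 3 → ℂ // v ≠ 0} × {v : Fin 3 → ℂ // v ≠ 0} =>
        x.1.1 a) := fun a =>
      (continuous_apply a).comp (continuous_subtype_val.comp continuous_fst)
    have hc' : ∀ a, Continuous (fun x : {v : Fin 3 → ℂ // v ≠ 0} × {v : Fin 3 → ℂ // v ≠ 0} =>
        x.2.1 a) := fun a =>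
      (continuous_apply a).comp (continuous_subtype_val.comp continuous_snd)
    exact isOpen_ne_fun (((hc i).mul (hc' j)).sub ((hc j).mul (hc' i))) continuous_const
  obtain ⟨A, B, hA, hB, hvA, hwB, hAB⟩ := isOpen_prod_iff.1 hopen v w hij
  refine ⟨pr '' A, pr '' B, isOpenMap_pr A hA, isOpenMap_pr B hB, ⟨v, hvA, rfl⟩, ⟨w, hwB, rfl⟩, ?_⟩
  rw [Set.disjoint_left]
  rintro _ ⟨a, ha, rfl⟩ ⟨b, hb, hab⟩
  have h1 : (a, b) ∈ {x : {v : Fin 3 → ℂ // v ≠ 0} × {v : Fin 3 → ℂ // v ≠ 0} |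
      x.1.1 i * x.2.1 j - x.1.1 j * x.2.1 i ≠ 0} := hAB (Set.mk_mem_prod ha hb)
  obtain ⟨c, hc⟩ := (Projectivization.mk_eq_mk_iff' ℂ _ _ b.2 a.2).1 hab
  apply h1
  show a.1 i * b.1 j - a.1 j * b.1 i = 0
  rw [← hc]
  simp only [Pi.smul_apply, smul_eq_mul]
  ring

instance compactCP2 : CompactSpace CP2 := by
  let f : Metric.sphere (0 : Fin 3 → ℂ) 1 → CP2 := fun v => pr ⟨v.1, by
    intro h
    have := v.2
    rw [h] at this
    simp at this⟩
  have hf : Continuous f := by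
    apply continuous_pr.comp
    exact Continuous.subtype_mk continuous_subtype_val _
  have hs : Function.Surjective f := by
    intro p
    obtain ⟨v, rfl⟩ := surjective_pr p
    have hn : ‖v.1‖ ≠ 0 := norm_ne_zero_iff.2 v.2
    refine ⟨⟨((‖v.1‖ : ℂ)⁻¹) • v.1, ?_⟩, ?_⟩
    · rw [mem_sphere_zero_iff_norm, norm_smul, norm_inv]
      simp [hn]
    · apply (Projectivization.mk_eq_mk_iff' ℂ _ _ _ v.2).2
      exact ⟨_, rfl⟩
  have : CompactSpace (Metric.sphere (0 : Fin 3 → ℂ) 1) :=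
    isCompact_iff_compactSpace.1 (isCompact_sphere 0 1)
  refine ⟨?_⟩
  rw [← hs.range_eq]
  exact isCompact_range hf

/-! ### Zero sets -/

theorem eval_rep_eq_zero_iff {n : ℕ} {G : Sx} (hG : G.IsHomogeneous n) (v : Fin 3 → ℂ)
    (hv : v ≠ 0) : eval (Projectivization.mk ℂ v hv).rep G = 0 ↔ eval v G = 0 := by
  obtain ⟨a, ha⟩ := Projectivization.exists_smul_eq_mk_rep ℂ v hv
  rw [← ha]
  have : eval ((a : ℂ) • v) G = (a : ℂ) ^ n * eval v G := eval_smul hG _ _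
  have h2 : (a • v : Fin 3 → ℂ) = (a : ℂ) • v := rfl
  rw [h2, this, mul_eq_zero]
  constructor
  · rintro (h | h)
    · exact absurd h (pow_ne_zero _ a.ne_zero)
    · exact h
  · exact Or.inr

theorem isClosed_zeros {n : ℕ} {G : Sx} (hG : G.IsHomogeneous n) :
    IsClosed {p : CP2 | eval p.rep G = 0} := by
  rw [← isOpenQuotientMap_pr.isQuotientMap.isClosed_preimage]
  have : pr ⁻¹' {p : CP2 | eval p.rep G = 0} = {v | eval v.1 G = 0} := by
    ext v
    exact eval_rep_eq_zero_iff hG v.1 v.2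
  rw [this]
  have hc : Continuous (fun v : {v : Fin 3 → ℂ // v ≠ 0} => eval v.1 G) :=
    (MvPolynomial.continuous_eval G).comp continuous_subtype_val
  exact isClosed_eq hc continuous_const

namespace Curve

variable (Γ : Curve)

/-- the points of the curve -/
def Pt : Type := {p : CP2 // eval p.rep Γ.F = 0}

noncomputable instance : TopologicalSpace Γ.Pt :=
  TopologicalSpace.induced (fun p : Γ.Pt => (p.1 : CP2)) inferInstance

instance : T2Space Γ.Pt := inferInstanceAs (T2Space {p : CP2 // eval p.rep Γ.F = 0})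

instance : CompactSpace Γ.Pt :=
  isCompact_iff_compactSpace.1 (isClosed_zeros Γ.hF).isCompact

/-- a representative vector of a point -/
noncomputable def Pt.rep {Γ : Curve} (p : Γ.Pt) : Fin 3 → ℂ := p.1.rep

theorem Pt.rep_ne {Γ : Curve} (p : Γ.Pt) : p.rep ≠ 0 := p.1.rep_nonzero

theorem Pt.F_rep {Γ : Curve} (p : Γ.Pt) : eval p.rep Γ.F = 0 := p.2

/-- the point with given homogeneous coordinates -/
noncomputable def mkPt (v : Fin 3 → ℂ) (h0 : v ≠ 0) (hF : eval v Γ.F = 0) : Γ.Pt :=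
  ⟨Projectivization.mk ℂ v h0, (eval_rep_eq_zero_iff Γ.hF v h0).2 hF⟩

theorem mkPt_rep (p : Γ.Pt) : Γ.mkPt p.rep p.rep_ne p.F_rep = p :=
  Subtype.ext p.1.mk_rep

theorem mkPt_eq_iff {v w : Fin 3 → ℂ} {h0 : v ≠ 0} {hF : eval v Γ.F = 0} {h0' : w ≠ 0}
    {hF' : eval w Γ.F = 0} : Γ.mkPt v h0 hF = Γ.mkPt w h0' hF' ↔ ∃ a : ℂ, a • w = v := by
  rw [← Projectivization.mk_eq_mk_iff' ℂ v w h0 h0']
  exact Subtype.ext_iff

theorem eval_rep_mkPt {n : ℕ} {G : Sx} (hG : G.IsHomogeneous n) {v : Fin 3 → ℂ} {h0 : v ≠ 0}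
    {hF : eval v Γ.F = 0} : eval (Γ.mkPt v h0 hF).rep G = 0 ↔ eval v G = 0 :=
  eval_rep_eq_zero_iff hG v h0

theorem rep_mkPt_smul {v : Fin 3 → ℂ} {h0 : v ≠ 0}
    {hF : eval v Γ.F = 0} : ∃ a : ℂ, a ≠ 0 ∧ (Γ.mkPt v h0 hF).rep = a • v := by
  obtain ⟨a, ha⟩ := Projectivization.exists_smul_eq_mk_rep ℂ v h0
  exact ⟨a, a.ne_zero, ha.symm⟩

theorem eventually_nhds {v : Fin 3 → ℂ} {h0 : v ≠ 0} {hF : eval v Γ.F = 0} {P : Γ.Pt → Prop} :
    (∀ᶠ q in 𝓝 (Γ.mkPt v h0 hF), P q) ↔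
      ∀ᶠ w in 𝓝 v, ∀ (h : w ≠ 0) (h' : eval w Γ.F = 0), P (Γ.mkPt w h h') := by
  have h1 : 𝓝 (Γ.mkPt v h0 hF) =
      comap (fun p : Γ.Pt => (p.1 : CP2)) (𝓝 (Projectivization.mk ℂ v h0)) :=
    nhds_induced _ _
  have h2 : 𝓝 (Projectivization.mk ℂ v h0) = map pr (𝓝 ⟨v, h0⟩) :=
    (isOpenQuotientMap_pr.map_nhds_eq ⟨v, h0⟩).symm
  have h3 : 𝓝 (⟨v, h0⟩ : {v : Fin 3 → ℂ // v ≠ 0}) = comap Subtype.val (𝓝 v) :=
    nhds_induced _ _
  rw [h1, h2, h3, eventually_comap, eventually_map, eventually_comap]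
  constructor
  · intro h
    filter_upwards [h] with w hw h' h''
    exact hw ⟨w, h'⟩ rfl (Γ.mkPt w h' h'') rfl
  · intro h
    filter_upwards [h] with w hw a ha p hp
    subst ha
    have hFa : eval a.1 Γ.F = 0 := by
      have := p.2
      rw [hp] at this
      exact (eval_rep_eq_zero_iff Γ.hF a.1 a.2).1 this
    have : p = Γ.mkPt a.1 a.2 hFa := Subtype.ext hp
    rw [this]
    exact hw a.2 hFa

theorem tendsto_mkPt {ι : Type*} {l : Filter ι} {u : ι → Fin 3 → ℂ} {v : Fin 3 → ℂ} {h0 : v ≠ 0}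
    {hF : eval v Γ.F = 0} (hu : Tendsto u l (𝓝 v)) {f : ι → Γ.Pt}
    (hf : ∀ᶠ x in l, ∃ (h : u x ≠ 0) (h' : eval (u x) Γ.F = 0), f x = Γ.mkPt (u x) h h') :
    Tendsto f l (𝓝 (Γ.mkPt v h0 hF)) := by
  rw [tendsto_iff_eventually]
  intro P hP
  rw [Γ.eventually_nhds] at hP
  filter_upwards [hf, hu.eventually hP] with x hx hx'
  obtain ⟨h, h', heq⟩ := hx
  rw [heq]
  exact hx' h h'

end Curve

end Pool.Agent.TH166.TP
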