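import Mathlib
import Pool.Agent.TH166.TP.D

set_option autoImplicit false

/-!
# Local parameters as a structure, orders of vanishing, and the local algebra
-/

open MvPolynomial Filter Topology

namespace Pool.Agent.TH166.TP

/-- a local parametrisation of the cone near `v` (normalised in one coordinate) -/
structure LP (Γ : Curve) (v : Fin 3 → ℂ) where
  /-- the chart -/
  ch : Chart Γ v
  /-- the parametrisation -/
  γ : ℂ → Fin 3 → ℂ
  an : ∀ a, AnalyticAt ℂ (fun τ => γ τ a) 0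
  γ0 : γ 0 = v
  γi : ∀ τ, γ τ ch.i = v ch.i
  γk : ∀ τ, γ τ ch.k = v ch.k + τ
  γF : ∀ᶠ τ in 𝓝 0, eval (γ τ) Γ.F = 0
  uniq : ∀ᶠ w in 𝓝 v, eval w Γ.F = 0 →
      w = (w ch.i / v ch.i) • γ (w ch.k * (v ch.i / w ch.i) - v ch.k)

theorem exists_LP (Γ : Curve) {v : Fin 3 → ℂ} (h0 : v ≠ 0) (hF : eval v Γ.F = 0) :
    Nonempty (LP Γ v) := by
  obtain ⟨ch⟩ := exists_chart Γ h0 hF
  obtain ⟨γ, h1, h2, h3, h4, h5, h6⟩ := ch.exists_param hF
  exact ⟨⟨ch, γ, h1, h2, h3, h4, h5, h6⟩⟩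

namespace LP

variable {Γ : Curve} {v : Fin 3 → ℂ} (lp : LP Γ v)

include lp in
theorem v_ne : v ≠ 0 := by
  intro h
  exact lp.ch.vi (congrFun h _)

include lp in
theorem Fv : eval v Γ.F = 0 := by
  have := lp.γF.self_of_nhds
  rwa [lp.γ0] at this

theorem γ_ne (τ : ℂ) : lp.γ τ ≠ 0 := by
  intro h
  apply lp.ch.vi
  rw [← lp.γi τ, h]; rfl

theorem tendsto_γ : Tendsto lp.γ (𝓝 0) (𝓝 v) := by
  rw [tendsto_pi_nhds]
  intro a
  have := (lp.an a).continuousAt.tendsto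
  rw [lp.γ0] at this
  exact this

theorem analytic (G : Sx) : AnalyticAt ℂ (fun τ => eval (lp.γ τ) G) 0 :=
  analyticAt_eval lp.an G

/-- the base point -/
noncomputable def pt : Γ.Pt := Γ.mkPt v lp.v_ne lp.Fv

open Classical in
/-- the parametrisation with values in the curve -/
noncomputable def loc (τ : ℂ) : Γ.Pt :=
  if h : eval (lp.γ τ) Γ.F = 0 then Γ.mkPt (lp.γ τ) (lp.γ_ne τ) h else lp.pt

theorem loc_eq {τ : ℂ} (h : eval (lp.γ τ) Γ.F = 0) :
    lp.loc τ = Γ.mkPt (lp.γ τ) (lp.γ_ne τ) h := by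
  rw [loc, dif_pos h]

theorem loc_zero : lp.loc 0 = lp.pt := by
  have h : eval (lp.γ 0) Γ.F = 0 := by rw [lp.γ0]; exact lp.Fv
  rw [lp.loc_eq h, pt, Γ.mkPt_eq_iff]
  exact ⟨1, by rw [one_smul, lp.γ0]⟩

theorem tendsto_loc : Tendsto lp.loc (𝓝 0) (𝓝 lp.pt) := by
  apply Γ.tendsto_mkPt lp.tendsto_γ
  filter_upwards [lp.γF] with τ hτ
  exact ⟨lp.γ_ne τ, hτ, lp.loc_eq hτ⟩

/-- the local coordinate -/
noncomputable def ψ (q : Γ.Pt) : ℂ := q.rep lp.ch.k * (v lp.ch.i / q.rep lp.ch.i) - v lp.ch.k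

theorem ψ_mkPt {w : Fin 3 → ℂ} (h0 : w ≠ 0) (hF : eval w Γ.F = 0) :
    lp.ψ (Γ.mkPt w h0 hF) = w lp.ch.k * (v lp.ch.i / w lp.ch.i) - v lp.ch.k := by
  obtain ⟨a, ha, h⟩ := Γ.rep_mkPt_smul (h0 := h0) (hF := hF)
  rw [ψ, h]
  simp only [Pi.smul_apply, smul_eq_mul]
  congr 1
  rw [mul_div_assoc', mul_div_assoc', mul_assoc, mul_div_mul_left _ _ ha]

theorem tendsto_coord : Tendsto (fun w : Fin 3 → ℂ => w lp.ch.k * (v lp.ch.i / w lp.ch.i) -
    v lp.ch.k) (𝓝 v) (𝓝 0) := by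
  have h1 : ContinuousAt (fun w : Fin 3 → ℂ => v lp.ch.i / w lp.ch.i) v :=
    continuousAt_const.div (continuous_apply _).continuousAt lp.ch.vi
  have h2 : ContinuousAt (fun w : Fin 3 → ℂ => w lp.ch.k * (v lp.ch.i / w lp.ch.i) -
      v lp.ch.k) v := ((continuous_apply _).continuousAt.mul h1).sub continuousAt_const
  have h3 : v lp.ch.k * (v lp.ch.i / v lp.ch.i) - v lp.ch.k = 0 := by
    rw [div_self lp.ch.vi]; ring
  unfold ContinuousAt at h2
  simp only [h3] at h2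
  exact h2

theorem tendsto_ψ : Tendsto lp.ψ (𝓝 lp.pt) (𝓝 0) := by
  rw [tendsto_iff_eventually]
  intro P hP
  rw [pt, Γ.eventually_nhds]
  filter_upwards [lp.tendsto_coord.eventually hP] with w hw h h'
  rw [lp.ψ_mkPt]
  exact hw

theorem loc_ψ : ∀ᶠ q in 𝓝 lp.pt, lp.loc (lp.ψ q) = q := by
  rw [pt, Γ.eventually_nhds]
  filter_upwards [lp.uniq, lp.tendsto_coord.eventually lp.γF] with w hw hw' h h'
  rw [lp.ψ_mkPt, lp.loc_eq hw', Γ.mkPt_eq_iff]
  have h1 := hw h'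
  have hne : w lp.ch.i / v lp.ch.i ≠ 0 := by
    intro h0
    rw [h0, zero_smul] at h1
    exact h h1
  refine ⟨(w lp.ch.i / v lp.ch.i)⁻¹, ?_⟩
  rw [inv_smul_eq_iff₀ hne]
  exact h1

theorem ψ_loc : ∀ᶠ τ in 𝓝 0, lp.ψ (lp.loc τ) = τ := by
  filter_upwards [lp.γF] with τ hτ
  rw [lp.loc_eq hτ, lp.ψ_mkPt, lp.γi, lp.γk, div_self lp.ch.vi]
  ring

theorem nhds_pt : 𝓝 lp.pt = map lp.loc (𝓝 0) := by
  apply le_antisymm
  · have h1 : map lp.loc (map lp.ψ (𝓝 lp.pt)) = 𝓝 lp.pt := by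
      rw [map_map]
      conv_rhs => rw [← map_id (f := 𝓝 lp.pt)]
      exact map_congr lp.loc_ψ
    rw [← h1]
    exact map_mono lp.tendsto_ψ
  · exact lp.tendsto_loc

/-! ### Orders -/

/-- order of vanishing of a polynomial along the parametrisation -/
noncomputable def ord (G : Sx) : ℕ∞ := analyticOrderAt (fun τ => eval (lp.γ τ) G) 0

theorem ord_eq_zero_iff {G : Sx} : lp.ord G = 0 ↔ eval v G ≠ 0 := by
  rw [ord, (lp.analytic G).analyticOrderAt_eq_zero, lp.γ0]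

theorem one_le_ord_iff {G : Sx} : 1 ≤ lp.ord G ↔ eval v G = 0 := by
  rw [Order.one_le_iff_ne_zero, ne_eq, lp.ord_eq_zero_iff, not_not]

theorem ord_mul (G H : Sx) : lp.ord (G * H) = lp.ord G + lp.ord H := by
  have h : (fun τ => eval (lp.γ τ) (G * H)) =
      (fun τ => eval (lp.γ τ) G) * fun τ => eval (lp.γ τ) H := by
    funext τ; simp
  rw [ord, ord, ord, h]
  exact analyticOrderAt_mul (lp.analytic G) (lp.analytic H)

theorem ord_pow (G : Sx) (k : ℕ) : lp.ord (G ^ k) = k * lp.ord G := by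
  induction k with
  | zero =>
    rw [pow_zero, Nat.cast_zero, zero_mul, lp.ord_eq_zero_iff]
    simp
  | succ k ih =>
    rw [pow_succ, lp.ord_mul, ih, Nat.cast_add, Nat.cast_one, add_mul, one_mul]

theorem le_ord_add (G H : Sx) : min (lp.ord G) (lp.ord H) ≤ lp.ord (G + H) := by
  have h : (fun τ => eval (lp.γ τ) (G + H)) =
      (fun τ => eval (lp.γ τ) G) + fun τ => eval (lp.γ τ) H := by
    funext τ; simp
  rw [ord, ord, ord, h]
  exact le_analyticOrderAt_add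

theorem ord_eq_top_iff {G : Sx} : lp.ord G = ⊤ ↔ ∀ᶠ τ in 𝓝 0, eval (lp.γ τ) G = 0 :=
  analyticOrderAt_eq_top

theorem ord_mulF (w : Sx) : lp.ord (w * Γ.F) = ⊤ := by
  rw [ord_eq_top_iff]
  filter_upwards [lp.γF] with τ hτ
  rw [map_mul, hτ, mul_zero]

theorem ord_of_dvd {G : Sx} (h : Γ.F ∣ G) : lp.ord G = ⊤ := by
  obtain ⟨w, rfl⟩ := h
  rw [mul_comm]
  exact lp.ord_mulF w

theorem ord_congr {G H w : Sx} (h : G = H + w * Γ.F) : lp.ord G = lp.ord H := by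
  apply analyticOrderAt_congr
  filter_upwards [lp.γF] with τ hτ
  rw [h, map_add, map_mul, hτ, mul_zero, add_zero]

theorem ord_C {c : ℂ} (hc : c ≠ 0) : lp.ord (C c) = 0 := by
  rw [ord_eq_zero_iff]
  simpa using hc

theorem le_ord_iff {G : Sx} {n : ℕ} : (n : ℕ∞) ≤ lp.ord G ↔
    ∀ i < n, iteratedDeriv i (fun τ => eval (lp.γ τ) G) 0 = 0 :=
  natCast_le_analyticOrderAt_iff_iteratedDeriv_eq_zero (lp.analytic G)

/-! ### Local algebra -/

/-- the linear form which restricts to the local parameter -/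
noncomputable def ell : Sx := X lp.ch.k - C (v lp.ch.k / v lp.ch.i) * X lp.ch.i

theorem eval_ell (τ : ℂ) : eval (lp.γ τ) lp.ell = τ := by
  simp only [ell, map_sub, map_mul, eval_X, eval_C, lp.γi, lp.γk]
  have := lp.ch.vi
  field_simp
  ring

theorem ell_homog : lp.ell.IsHomogeneous 1 := by
  apply (isHomogeneous_X _ _).sub
  have := (isHomogeneous_C (Fin 3) (v lp.ch.k / v lp.ch.i)).mul (isHomogeneous_X ℂ lp.ch.i)
  simpa using this

theorem ord_ell : lp.ord lp.ell = 1 := by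
  have h : (fun τ => eval (lp.γ τ) lp.ell) = id := by
    funext τ
    exact lp.eval_ell τ
  rw [ord, h]
  exact analyticOrderAt_id

/-- the second linear form vanishing at the point -/
noncomputable def ell' : Sx := X lp.ch.j - C (v lp.ch.j / v lp.ch.i) * X lp.ch.i

theorem ell'_homog : lp.ell'.IsHomogeneous 1 := by
  apply (isHomogeneous_X _ _).sub
  have := (isHomogeneous_C (Fin 3) (v lp.ch.j / v lp.ch.i)).mul (isHomogeneous_X ℂ lp.ch.i)
  simpa using this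

theorem decomp {n : ℕ} {G : Sx} (hG : G.IsHomogeneous n) (h : eval v G = 0) :
    ∃ a b : Sx, a.IsHomogeneous (n - 1) ∧ b.IsHomogeneous (n - 1) ∧
      a * lp.ell + b * lp.ell' = G := by
  have hvi := lp.ch.vi
  rcases Nat.eq_zero_or_pos n with hn | hn
  · subst hn
    have h1 : G = 0 := by
      rw [← totalDegree_zero_iff_isHomogeneous, totalDegree_eq_zero_iff_eq_C] at hG
      rw [hG] at h ⊢
      rw [eval_C] at h
      rw [h, C_0]
    exact ⟨0, 0, isHomogeneous_zero _ _ _, isHomogeneous_zero _ _ _, by rw [h1]; ring⟩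
  set I : Ideal Sx := Ideal.span {lp.ell, lp.ell'} with hI
  have h1 : lp.ell ∈ I := Ideal.subset_span (by simp)
  have h2 : lp.ell' ∈ I := Ideal.subset_span (by simp)
  have hmem : G ∈ I := by
    rw [← Ideal.Quotient.eq_zero_iff_mem]
    have h3 : Ideal.Quotient.mk I G = aeval (fun a => Ideal.Quotient.mk I (X a)) G := by
      have h4 : (Ideal.Quotient.mkₐ ℂ I) = aeval (fun a => Ideal.Quotient.mk I (X a)) := by
        apply MvPolynomial.algHom_ext
        intro a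
        rw [aeval_X]
        rfl
      exact congrArg (fun f : Sx →ₐ[ℂ] (Sx ⧸ I) => f G) h4
    have h5 : ∀ a, Ideal.Quotient.mk I (X a : Sx) =
        algebraMap ℂ (Sx ⧸ I) (v a) * Ideal.Quotient.mk I (C (v lp.ch.i)⁻¹ * X lp.ch.i) := by
      intro a
      have h6 : algebraMap ℂ (Sx ⧸ I) (v a) = Ideal.Quotient.mk I (C (v a)) := rfl
      rw [h6, ← map_mul, Ideal.Quotient.eq]
      rcases lp.ch.cases a with rfl | rfl | rfl
      · have : (X lp.ch.i : Sx) - C (v lp.ch.i) * (C (v lp.ch.i)⁻¹ * X lp.ch.i) = 0 := by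
          rw [← mul_assoc, ← C_mul, mul_inv_cancel₀ hvi]
          simp
        rw [this]
        exact I.zero_mem
      · have : (X lp.ch.j : Sx) - C (v lp.ch.j) * (C (v lp.ch.i)⁻¹ * X lp.ch.i) = lp.ell' := by
          rw [ell', ← mul_assoc, ← C_mul, div_eq_mul_inv]
        rw [this]
        exact h2
      · have : (X lp.ch.k : Sx) - C (v lp.ch.k) * (C (v lp.ch.i)⁻¹ * X lp.ch.i) = lp.ell := by
          rw [ell, ← mul_assoc, ← C_mul, div_eq_mul_inv]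
        rw [this]
        exact h1
    rw [h3]
    simp only [h5]
    rw [aeval_homog hG, h, map_zero, zero_mul]
  obtain ⟨a, b, hab⟩ := Ideal.mem_span_pair.1 hmem
  refine ⟨homogeneousComponent (n - 1) a, homogeneousComponent (n - 1) b,
    homogeneousComponent_isHomogeneous _ _, homogeneousComponent_isHomogeneous _ _, ?_⟩
  have := homogeneousComponent_eq_self hG
  rw [← hab, map_add, homogeneousComponent_mul_right _ _ lp.ell_homog hn,
    homogeneousComponent_mul_right _ _ lp.ell'_homog hn, hab] at this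
  exact this

theorem local_step {n : ℕ} {G : Sx} (hG : G.IsHomogeneous n) (h : eval v G = 0) :
    ∃ β G₁ w : Sx, (∃ n₂, G₁.IsHomogeneous n₂) ∧ (∃ n₁, β.IsHomogeneous n₁) ∧
      eval v β ≠ 0 ∧ β * G = lp.ell * G₁ + w * Γ.F := by
  obtain ⟨α, β, hα, hβ, hF⟩ := lp.decomp Γ.hF lp.Fv
  obtain ⟨a, b, ha, hb, hab⟩ := lp.decomp hG h
  refine ⟨β, a * β - b * α, b, ⟨n - 1 + (Γ.m - 1), (ha.mul hβ).sub (hb.mul hα)⟩,
    ⟨_, hβ⟩, ?_, ?_⟩
  · have h1 := lp.ch.dj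
    have hij := lp.ch.hij
    have hik := lp.ch.hik
    have hjk := lp.ch.hjk
    have h2 : pderiv lp.ch.j lp.ell = 0 := by
      simp [ell, pderiv_X_of_ne hjk.symm, pderiv_X_of_ne hij]
    have h3 : pderiv lp.ch.j lp.ell' = 1 := by
      simp [ell', pderiv_X_of_ne hij]
    have h4 : eval v lp.ell = 0 := by
      have := lp.eval_ell 0
      rwa [lp.γ0] at this
    have h5 : eval v lp.ell' = 0 := by
      have := lp.ch.vi
      simp [ell']
      field_simp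
      ring
    rw [← hF] at h1
    simp only [map_add, Derivation.leibniz, smul_eq_mul, h2, h3, map_mul, h4, h5, mul_zero,
      zero_mul, add_zero, zero_add, mul_one] at h1
    exact h1
  · rw [← hab, ← hF]
    ring

theorem local_alg (k : ℕ) : ∀ {n : ℕ} {G : Sx}, G.IsHomogeneous n → (k : ℕ∞) ≤ lp.ord G →
    ∃ P Q w : Sx, (∃ n₂, Q.IsHomogeneous n₂) ∧ (∃ n₁, P.IsHomogeneous n₁) ∧
      eval v P ≠ 0 ∧ P * G = lp.ell ^ k * Q + w * Γ.F := by
  induction k with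
  | zero =>
    intro n G hG _
    exact ⟨1, G, 0, ⟨n, hG⟩, ⟨0, isHomogeneous_one _ _⟩, by simp, by ring⟩
  | succ k ih =>
    intro n G hG hk
    have h1 : eval v G = 0 := by
      rw [← lp.one_le_ord_iff]
      refine le_trans ?_ hk
      simp
    obtain ⟨β, G₁, w, ⟨n₂, hG₁⟩, ⟨n₁, hβh⟩, hβ, h⟩ := lp.local_step hG h1
    have h2 : lp.ord β + lp.ord G = 1 + lp.ord G₁ := by
      rw [← lp.ord_mul, lp.ord_congr h, lp.ord_mul, lp.ord_ell]
    rw [lp.ord_eq_zero_iff.2 hβ, zero_add] at h2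
    have h3 : (k : ℕ∞) ≤ lp.ord G₁ := by
      rw [h2, Nat.cast_add, Nat.cast_one, add_comm] at hk
      exact (ENat.add_le_add_iff_left (by simp)).1 hk
    obtain ⟨P, Q, w', hQ, ⟨n₃, hPh⟩, hP, h4⟩ := ih hG₁ h3
    refine ⟨P * β, Q, lp.ell * w' + P * w, hQ, ⟨_, hPh.mul hβh⟩, ?_, ?_⟩
    · rw [map_mul]
      exact mul_ne_zero hP hβ
    · rw [mul_assoc, h]
      have : P * (lp.ell * G₁ + w * Γ.F) = lp.ell * (P * G₁) + P * w * Γ.F := by ring
      rw [this, h4]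
      ring

theorem local_noether {n n' : ℕ} {G B : Sx} (hG : G.IsHomogeneous n) (hB : B.IsHomogeneous n')
    (hfin : lp.ord G ≠ ⊤) (h : lp.ord G ≤ lp.ord B) :
    ∃ P : Sx, (∃ n₁, P.IsHomogeneous n₁) ∧ eval v P ≠ 0 ∧ P * B ∈ Γ.idl G := by
  obtain ⟨k, hk⟩ := ENat.ne_top_iff_exists.1 hfin
  obtain ⟨P₁, Q₁, w₁, ⟨n₁, hQ₁h⟩, -, hP₁, h₁⟩ := lp.local_alg k hG hk.le
  obtain ⟨P₂, Q₂, w₂, -, ⟨n₂, hP₂h⟩, hP₂, h₂⟩ := lp.local_alg k hB (hk.le.trans h)
  have hQ₁ : eval v Q₁ ≠ 0 := by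
    rw [← lp.ord_eq_zero_iff]
    have h3 : lp.ord P₁ + lp.ord G = lp.ord (lp.ell ^ k) + lp.ord Q₁ := by
      rw [← lp.ord_mul, lp.ord_congr h₁, lp.ord_mul]
    have h4 : lp.ord (lp.ell ^ k) = k := by
      rw [lp.ord_pow, lp.ord_ell, mul_one]
    rw [lp.ord_eq_zero_iff.2 hP₁, zero_add, h4, ← hk] at h3
    have h6 : (k : ℕ∞) + lp.ord Q₁ = k + 0 := by rw [← h3, add_zero]
    exact ENat.add_right_injective_of_ne_top (by simp) h6
  refine ⟨Q₁ * P₂, ⟨_, hQ₁h.mul hP₂h⟩, ?_, ?_⟩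
  · rw [map_mul]
    exact mul_ne_zero hQ₁ hP₂
  · rw [Γ.mem_idl]
    refine ⟨Q₂ * P₁, Q₁ * w₂ - Q₂ * w₁, ?_⟩
    linear_combination Q₂ * h₁ - Q₁ * h₂

end LP

end Pool.Agent.TH166.TP
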