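import Mathlib
import Pool.Agent.TH166.TP.E

set_option autoImplicit false

/-!
# Divisors on smooth plane curves: Riemann's inequality, Noether's theorem and Bezout's theorem
-/

open MvPolynomial Filter Topology
open scoped Classical

namespace Pool.Agent.TH166.TP

namespace Curve

variable (Γ : Curve)

/-- a chosen local parametrisation at every point -/
noncomputable def lp (p : Γ.Pt) : LP Γ p.rep := Classical.choice (exists_LP Γ p.rep_ne p.F_rep)

theorem lp_pt (p : Γ.Pt) : (Γ.lp p).pt = p := Γ.mkPt_rep p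

/-- order of vanishing at a point -/
noncomputable def ord (p : Γ.Pt) (G : Sx) : ℕ∞ := (Γ.lp p).ord G

theorem ord_smul {p : Γ.Pt} {G : Sx} (c : ℂ) : Γ.ord p G ≤ Γ.ord p (c • G) := by
  rw [smul_eq_C_mul, ord, ord, LP.ord_mul]
  exact le_add_self

/-- `A` is contained in the divisor of `G` -/
def LeDiv (A : Multiset Γ.Pt) (G : Sx) : Prop := ∀ x, (A.count x : ℕ∞) ≤ Γ.ord x G

/-- forms of degree `n` whose divisor contains `A` -/
noncomputable def W (n : ℕ) (A : Multiset Γ.Pt) : Submodule ℂ Sx where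
  carrier := {B | B.IsHomogeneous n ∧ Γ.LeDiv A B}
  zero_mem' := by
    refine ⟨isHomogeneous_zero _ _ _, fun x => ?_⟩
    have : Γ.ord x 0 = ⊤ := (Γ.lp x).ord_of_dvd (dvd_zero _)
    rw [this]
    exact le_top
  add_mem' := by
    intro a b ha hb
    exact ⟨ha.1.add hb.1, fun x => (le_min (ha.2 x) (hb.2 x)).trans ((Γ.lp x).le_ord_add a b)⟩
  smul_mem' := by
    intro c a ha
    refine ⟨?_, fun x => (ha.2 x).trans (Γ.ord_smul c)⟩
    exact (homogeneousSubmodule (Fin 3) ℂ n).smul_mem c ha.1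

theorem mem_W {n : ℕ} {A : Multiset Γ.Pt} {B : Sx} :
    B ∈ Γ.W n A ↔ B.IsHomogeneous n ∧ Γ.LeDiv A B := Iff.rfl

theorem W_le (n : ℕ) (A : Multiset Γ.Pt) : Γ.W n A ≤ Hn n := fun _ h => h.1

instance (n : ℕ) (A : Multiset Γ.Pt) : Module.Finite ℂ (Γ.W n A) := finite_of_le (Γ.W_le n A)

theorem W_zero (n : ℕ) : Γ.W n 0 = Hn n := by
  apply le_antisymm (Γ.W_le n 0)
  intro B hB
  exact ⟨hB, fun x => by simp⟩

theorem W_cons_le (n : ℕ) (x : Γ.Pt) (A : Multiset Γ.Pt) : Γ.W n (x ::ₘ A) ≤ Γ.W n A := by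
  intro B hB
  refine ⟨hB.1, fun y => le_trans ?_ (hB.2 y)⟩
  exact_mod_cast Multiset.count_le_count_cons y x A

theorem drop_le (n : ℕ) (x : Γ.Pt) (A : Multiset Γ.Pt) :
    Module.finrank ℂ (Γ.W n A) ≤ Module.finrank ℂ (Γ.W n (x ::ₘ A)) + 1 := by
  let L : Γ.W n A →ₗ[ℂ] ℂ :=
    { toFun := fun B => iteratedDeriv (A.count x) (fun τ => eval ((Γ.lp x).γ τ) B.1) 0
      map_add' := by
        intro B B'
        have h : (fun τ => eval ((Γ.lp x).γ τ) (B + B').1) =
            (fun τ => eval ((Γ.lp x).γ τ) B.1) + fun τ => eval ((Γ.lp x).γ τ) B'.1 := by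
          funext τ; simp
        rw [h]
        exact iteratedDeriv_add ((Γ.lp x).analytic _).contDiffAt
          ((Γ.lp x).analytic _).contDiffAt
      map_smul' := by
        intro c B
        have h : (fun τ => eval ((Γ.lp x).γ τ) (c • B).1) =
            c • (fun τ => eval ((Γ.lp x).γ τ) B.1) := by
          funext τ; simp
        rw [h]
        exact iteratedDeriv_const_smul ((Γ.lp x).analytic _).contDiffAt c }
  have hker : (LinearMap.ker L).map (Γ.W n A).subtype = Γ.W n (x ::ₘ A) := by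
    ext B
    rw [Submodule.mem_map]
    constructor
    · rintro ⟨⟨B', hB'⟩, hL, rfl⟩
      refine ⟨hB'.1, fun y => ?_⟩
      rw [LinearMap.mem_ker] at hL
      by_cases hy : y = x
      · subst hy
        rw [Multiset.count_cons_self]
        have h1 := hB'.2 y
        rw [ord, LP.le_ord_iff] at h1 ⊢
        intro i hi
        rcases Nat.lt_succ_iff_lt_or_eq.1 hi with h | h
        · exact h1 i h
        · rw [h]; exact hL
      · rw [Multiset.count_cons_of_ne hy]
        exact hB'.2 y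
    · intro hB
      refine ⟨⟨B, Γ.W_cons_le n x A hB⟩, ?_, rfl⟩
      rw [LinearMap.mem_ker]
      have h1 := hB.2 x
      rw [Multiset.count_cons_self, ord, LP.le_ord_iff] at h1
      exact h1 _ (Nat.lt_succ_self _)
  have h1 := LinearMap.finrank_range_add_finrank_ker L
  have h2 : Module.finrank ℂ (LinearMap.ker L) = Module.finrank ℂ (Γ.W n (x ::ₘ A)) := by
    rw [← hker]
    exact (Submodule.finrank_map_subtype_eq _ _).symm
  have h3 : Module.finrank ℂ (LinearMap.range L) ≤ 1 := by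
    have := Submodule.finrank_le (LinearMap.range L)
    simpa using this
  omega

theorem finrank_le_W (n : ℕ) (A : Multiset Γ.Pt) :
    (n + 2).choose 2 ≤ Module.finrank ℂ (Γ.W n A) + A.card := by
  induction A using Multiset.induction_on with
  | empty => rw [W_zero, finrank_hom]; simp
  | cons x A ih =>
    have := Γ.drop_le n x A
    rw [Multiset.card_cons]
    omega

/-! ### Forms with prescribed divisors -/

/-- a linear form vanishing at `y` (simply if `y = x`) and not at `x` otherwise -/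
theorem exists_linear (x y : Γ.Pt) : ∃ L : Sx, L.IsHomogeneous 1 ∧ 1 ≤ Γ.ord y L ∧
    Γ.ord x L = if x = y then 1 else 0 := by
  by_cases hxy : x = y
  · subst hxy
    refine ⟨(Γ.lp x).ell, (Γ.lp x).ell_homog, ?_, ?_⟩
    · exact (Γ.lp x).ord_ell.ge
    · rw [if_pos rfl]; exact (Γ.lp x).ord_ell
  · obtain ⟨i, j, hij⟩ : ∃ i j, x.rep i * y.rep j - x.rep j * y.rep i ≠ 0 := by
      by_contra hcon
      push Not at hcon
      apply hxy
      obtain ⟨i, hi⟩ : ∃ i, y.rep i ≠ 0 := by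
        by_contra h
        push Not at h
        exact y.rep_ne (funext h)
      rw [← Γ.mkPt_rep x, ← Γ.mkPt_rep y, Γ.mkPt_eq_iff]
      refine ⟨x.rep i / y.rep i, ?_⟩
      funext j
      have := hcon i j
      simp only [Pi.smul_apply, smul_eq_mul]
      field_simp
      linear_combination this
    refine ⟨C (y.rep j) * X i - C (y.rep i) * X j, ?_, ?_, ?_⟩
    · apply IsHomogeneous.sub
      · simpa using (isHomogeneous_C (Fin 3) (y.rep j)).mul (isHomogeneous_X ℂ i)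
      · simpa using (isHomogeneous_C (Fin 3) (y.rep i)).mul (isHomogeneous_X ℂ j)
    · rw [ord, LP.one_le_ord_iff]
      simp
      ring
    · rw [if_neg hxy, ord, LP.ord_eq_zero_iff]
      simp
      intro h
      apply hij
      linear_combination h

theorem exists_form (x : Γ.Pt) (A : Multiset Γ.Pt) : ∃ B : Sx, B.IsHomogeneous A.card ∧
    Γ.LeDiv A B ∧ Γ.ord x B = A.count x := by
  induction A using Multiset.induction_on with
  | empty =>
    refine ⟨1, isHomogeneous_one _ _, fun y => by simp, ?_⟩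
    rw [ord, Multiset.count_zero, Nat.cast_zero, LP.ord_eq_zero_iff]
    simp
  | cons y A ih =>
    obtain ⟨B, hB1, hB2, hB3⟩ := ih
    obtain ⟨L, hL1, hL2, hL3⟩ := Γ.exists_linear x y
    refine ⟨L * B, ?_, ?_, ?_⟩
    · rw [Multiset.card_cons, add_comm]
      exact hL1.mul hB1
    · intro z
      rw [ord, LP.ord_mul]
      rw [Multiset.count_cons, Nat.cast_add, add_comm]
      refine add_le_add ?_ (hB2 z)
      by_cases hz : z = y
      · rw [if_pos hz, hz]; exact_mod_cast hL2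
      · rw [if_neg hz]; simp
    · rw [ord, LP.ord_mul]
      have h1 : (Γ.lp x).ord L = if x = y then 1 else 0 := hL3
      have h2 : (Γ.lp x).ord B = A.count x := hB3
      rw [h1, h2, Multiset.count_cons, Nat.cast_add, add_comm]
      congr 1
      split_ifs <;> simp

theorem exists_form' (x : Γ.Pt) (A : Multiset Γ.Pt) {n : ℕ} (hn : A.card ≤ n) :
    ∃ B : Sx, B.IsHomogeneous n ∧ Γ.LeDiv A B ∧ Γ.ord x B = A.count x := by
  obtain ⟨B, hB1, hB2, hB3⟩ := Γ.exists_form x A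
  obtain ⟨i, hi⟩ : ∃ i, x.rep i ≠ 0 := by
    by_contra h
    push Not at h
    exact x.rep_ne (funext h)
  refine ⟨B * X i ^ (n - A.card), ?_, ?_, ?_⟩
  · have := hB1.mul ((isHomogeneous_X ℂ i).pow (n - A.card))
    convert this using 1
    omega
  · intro y
    rw [ord, LP.ord_mul]
    exact (hB2 y).trans le_self_add
  · rw [ord, LP.ord_mul, LP.ord_pow]
    have h1 : (Γ.lp x).ord (X i) = 0 := by
      rw [LP.ord_eq_zero_iff]
      simpa using hi
    rw [h1, mul_zero, add_zero]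
    exact hB3

theorem drop_eq {n : ℕ} (x : Γ.Pt) {A : Multiset Γ.Pt} (hn : A.card ≤ n) :
    Module.finrank ℂ (Γ.W n A) = Module.finrank ℂ (Γ.W n (x ::ₘ A)) + 1 := by
  apply le_antisymm (Γ.drop_le n x A)
  apply Submodule.finrank_lt_finrank_of_lt
  refine lt_of_le_of_ne (Γ.W_cons_le n x A) ?_
  intro h
  obtain ⟨B, hB1, hB2, hB3⟩ := Γ.exists_form' x A hn
  have h1 : B ∈ Γ.W n A := ⟨hB1, hB2⟩
  rw [← h] at h1
  have h2 := h1.2 x
  rw [hB3, Multiset.count_cons_self] at h2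
  have h3 : A.count x + 1 ≤ A.count x := by exact_mod_cast h2
  omega

theorem finrank_W {n : ℕ} (A : Multiset Γ.Pt) (hn : A.card ≤ n + 1) :
    Module.finrank ℂ (Γ.W n A) + A.card = (n + 2).choose 2 := by
  induction A using Multiset.induction_on with
  | empty => rw [W_zero, finrank_hom]; simp
  | cons x A ih =>
    rw [Multiset.card_cons] at hn ⊢
    have h1 := Γ.drop_eq x (show A.card ≤ n by omega)
    have h2 := ih (by omega)
    omega

/-! ### Bezout's inequality -/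

theorem J_le_W {G : Sx} {A : Multiset Γ.Pt} (h : Γ.LeDiv A G) (n : ℕ) :
    Γ.J G n ≤ Γ.W n A := by
  intro B hB
  refine ⟨hB.1, fun x => (h x).trans ?_⟩
  obtain ⟨u, w, huw⟩ := Γ.mem_idl.1 hB.2
  have h1 : (Γ.lp x).ord B = (Γ.lp x).ord (u * G) := (Γ.lp x).ord_congr huw.symm
  rw [ord, ord, h1, LP.ord_mul]
  exact le_add_self

theorem bezout_le {G : Sx} {d : ℕ} (hG : G.IsHomogeneous d) (hGF : ¬ Γ.F ∣ G)
    {A : Multiset Γ.Pt} (h : Γ.LeDiv A G) : A.card ≤ d * Γ.m := by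
  have h1 := Γ.finrank_J hG hGF A.card
  have h2 := Γ.finrank_W (n := d + Γ.m + A.card) A (by omega)
  have h3 := Submodule.finrank_mono (Γ.J_le_W h (d + Γ.m + A.card))
  omega

theorem ord_ne_top {G : Sx} {d : ℕ} (hG : G.IsHomogeneous d) (hGF : ¬ Γ.F ∣ G) (x : Γ.Pt) :
    Γ.ord x G ≠ ⊤ := by
  intro htop
  have h1 : Γ.LeDiv (Multiset.replicate (d * Γ.m + 1) x) G := by
    intro y
    rw [Multiset.count_replicate]
    by_cases hy : x = y
    · subst hy; rw [htop]; exact le_top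
    · rw [if_neg hy]; simp
  have := Γ.bezout_le hG hGF h1
  rw [Multiset.card_replicate] at this
  omega

theorem exists_div {G : Sx} {d : ℕ} (hG : G.IsHomogeneous d) (hGF : ¬ Γ.F ∣ G) :
    ∃ D : Multiset Γ.Pt, ∀ x, Γ.ord x G = D.count x := by
  let P : ℕ → Prop := fun k => ∃ A : Multiset Γ.Pt, Γ.LeDiv A G ∧ A.card = k
  have h0 : P 0 := ⟨0, fun x => by simp, rfl⟩
  have hspec : P (Nat.findGreatest P (d * Γ.m)) := Nat.findGreatest_spec (Nat.zero_le _) h0
  obtain ⟨A, hA, hcard⟩ := hspec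
  refine ⟨A, fun x => le_antisymm ?_ (hA x)⟩
  by_contra hlt
  rw [not_le] at hlt
  have h1 : Γ.LeDiv (x ::ₘ A) G := by
    intro y
    by_cases hy : y = x
    · subst hy
      rw [Multiset.count_cons_self]
      exact_mod_cast Order.add_one_le_of_lt hlt
    · rw [Multiset.count_cons_of_ne hy]
      exact hA y
  have h2 := Γ.bezout_le hG hGF h1
  have h3 : P (A.card + 1) := ⟨_, h1, Multiset.card_cons x A⟩
  rw [Multiset.card_cons] at h2
  have h4 := Nat.le_findGreatest h2 h3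
  omega

end Curve

/-! ### Cancellation of a general linear form -/

theorem exists_general (S : Finset (Fin 3 → ℂ)) (hS : ∀ v ∈ S, v ≠ 0) :
    ∃ α β : ℂ, ∀ v ∈ S, v 2 - α * v 0 - β * v 1 ≠ 0 := by
  let p : (Fin 3 → ℂ) → Polynomial ℂ := fun v =>
    Polynomial.C (v 2) - Polynomial.X * Polynomial.C (v 0) - Polynomial.X ^ 2 * Polynomial.C (v 1)
  have hp : ∀ v ∈ S, p v ≠ 0 := by
    intro v hv h0
    apply hS v hv
    have h2 : v 2 = 0 := by
      have := congrArg (fun q => Polynomial.coeff q 0) h0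
      simpa [p] using this
    have h1 : v 0 = 0 := by
      have := congrArg (fun q => Polynomial.coeff q 1) h0
      simpa [p, Polynomial.coeff_X_pow, Polynomial.coeff_C] using this
    have h3 : v 1 = 0 := by
      have := congrArg (fun q => Polynomial.coeff q 2) h0
      simpa [p, Polynomial.coeff_X, Polynomial.coeff_C] using this
    funext i
    fin_cases i
    · exact h1
    · exact h3
    · exact h2
  have hprod : ∏ v ∈ S, p v ≠ 0 := Finset.prod_ne_zero_iff.2 hp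
  obtain ⟨s, hs⟩ : ∃ s, (∏ v ∈ S, p v).eval s ≠ 0 := by
    by_contra hcon
    push Not at hcon
    apply hprod
    apply Polynomial.funext
    intro r
    rw [hcon r]
    simp
  refine ⟨s, s ^ 2, fun v hv h => hs ?_⟩
  rw [Polynomial.eval_prod]
  apply Finset.prod_eq_zero hv
  simp [p]
  linear_combination h

/-- restriction of polynomials to the plane `x₂ = α x₀ + β x₁` -/
noncomputable def φ (α β : ℂ) : Sx →ₐ[ℂ] MvPolynomial (Fin 2) ℂ :=
  aeval ![X 0, X 1, C α * X 0 + C β * X 1]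

/-- the section of `φ` -/
noncomputable def ι2 : MvPolynomial (Fin 2) ℂ →ₐ[ℂ] Sx := aeval ![X 0, X 1]

/-- the linear form -/
noncomputable def ell0 (α β : ℂ) : Sx := X 2 - C α * X 0 - C β * X 1

theorem φ_ell0 (α β : ℂ) : φ α β (ell0 α β) = 0 := by
  simp [φ, ell0]

theorem sub_mem (α β : ℂ) (P : Sx) : ell0 α β ∣ P - ι2 (φ α β P) := by
  rw [← Ideal.mem_span_singleton, ← Ideal.Quotient.eq]
  set I := Ideal.span {ell0 α β}
  have h4 : (Ideal.Quotient.mkₐ ℂ I) = ((Ideal.Quotient.mkₐ ℂ I).comp (ι2.comp (φ α β))) := by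
    apply MvPolynomial.algHom_ext
    intro a
    fin_cases a
    · simp [φ, ι2]
    · simp [φ, ι2]
    · simp [φ, ι2]
      rw [← map_mul, ← map_mul, ← map_add, Ideal.Quotient.eq, Ideal.mem_span_singleton]
      refine ⟨1, ?_⟩
      rw [ell0]
      ring
  exact congrArg (fun f : Sx →ₐ[ℂ] (Sx ⧸ I) => f P) h4

theorem φ_ι2 (α β : ℂ) (t : MvPolynomial (Fin 2) ℂ) : φ α β (ι2 t) = t := by
  have : (φ α β).comp ι2 = AlgHom.id ℂ _ := by
    apply MvPolynomial.algHom_ext
    intro a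
    fin_cases a
    · simp [φ, ι2]
    · simp [φ, ι2]
  exact congrArg (fun f : _ →ₐ[ℂ] MvPolynomial (Fin 2) ℂ => f t) this

theorem eval_φ (α β : ℂ) (P : Sx) (a : Fin 2 → ℂ) :
    eval a (φ α β P) = eval ![a 0, a 1, α * a 0 + β * a 1] P := by
  have : (aeval a : MvPolynomial (Fin 2) ℂ →ₐ[ℂ] ℂ).comp (φ α β) =
      aeval ![a 0, a 1, α * a 0 + β * a 1] := by
    apply MvPolynomial.algHom_ext
    intro i
    fin_cases i
    · simp [φ]
    · simp [φ]
    · simp [φ]
  exact congrArg (fun f : Sx →ₐ[ℂ] ℂ => f P) this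

namespace Curve

variable (Γ : Curve)

theorem cancel {G : Sx} {d : ℕ} (hG : G.IsHomogeneous d) (hGF : ¬ Γ.F ∣ G) {α β : ℂ}
    (h0 : ∀ v : Fin 3 → ℂ, v ≠ 0 → eval v Γ.F = 0 → eval v G = 0 → v 2 - α * v 0 - β * v 1 ≠ 0)
    {B : Sx} (hB : ell0 α β * B ∈ Γ.idl G) : B ∈ Γ.idl G := by
  have hG0 : G ≠ 0 := by
    rintro rfl
    exact hGF (dvd_zero _)
  rcases Nat.eq_zero_or_pos d with hd | hd
  · subst hd
    obtain ⟨c, hc⟩ := isUnit_iff_exists_inv.1 (isUnit_of_homog_zero hG hG0)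
    rw [Γ.mem_idl]
    refine ⟨c * B, 0, ?_⟩
    linear_combination B * hc
  obtain ⟨u, w, huw⟩ := Γ.mem_idl.1 hB
  have hcop : IsRelPrime (φ α β G) (φ α β Γ.F) := by
    intro D hD1 hD2
    by_contra hD
    obtain ⟨a, ha, haD⟩ := exists_zero_of_not_isUnit (k := 0) hD
    have h1 : eval a (φ α β G) = 0 := by
      obtain ⟨c, hc⟩ := hD1
      rw [hc, map_mul, haD, zero_mul]
    have h2 : eval a (φ α β Γ.F) = 0 := by
      obtain ⟨c, hc⟩ := hD2
      rw [hc, map_mul, haD, zero_mul]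
    rw [eval_φ] at h1 h2
    refine h0 _ ?_ h2 h1 ?_
    · intro h
      apply ha
      funext i
      fin_cases i
      · exact congrFun h 0
      · exact congrFun h 1
    · simp
  have hφ : φ α β u * φ α β G + φ α β w * φ α β Γ.F = 0 := by
    rw [← map_mul, ← map_mul, ← map_add, huw, map_mul, φ_ell0, zero_mul]
  have hφF : φ α β Γ.F ≠ 0 := by
    intro h
    rw [h] at hcop hφ
    have hu : IsUnit (φ α β G) := hcop dvd_rfl (dvd_zero _)
    have h1 : eval 0 (φ α β G) = 0 := by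
      rw [eval_φ]
      have h2 : (![(0 : Fin 2 → ℂ) 0, (0 : Fin 2 → ℂ) 1,
          α * (0 : Fin 2 → ℂ) 0 + β * (0 : Fin 2 → ℂ) 1] : Fin 3 → ℂ) = 0 := by
        funext i
        fin_cases i <;> simp
      rw [h2]
      exact eval_zero_of_homog hd hG
    have h3 := hu.map (eval (0 : Fin 2 → ℂ))
    rw [h1] at h3
    exact not_isUnit_zero h3
  have hdvd : φ α β Γ.F ∣ φ α β u := by
    apply hcop.symm.dvd_of_dvd_mul_right
    refine ⟨-φ α β w, ?_⟩
    linear_combination hφ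
  obtain ⟨t, ht⟩ := hdvd
  have hw : φ α β w = -(t * φ α β G) := by
    apply mul_right_cancel₀ hφF
    rw [ht] at hφ
    linear_combination hφ
  obtain ⟨u', hu'⟩ := sub_mem α β (u - ι2 t * Γ.F)
  obtain ⟨w', hw'⟩ := sub_mem α β (w + ι2 t * G)
  have e1 : φ α β (u - ι2 t * Γ.F) = 0 := by
    rw [map_sub, map_mul, φ_ι2, ht]; ring
  have e2 : φ α β (w + ι2 t * G) = 0 := by
    rw [map_add, map_mul, φ_ι2, hw]; ring
  rw [e1, map_zero, sub_zero] at hu'
  rw [e2, map_zero, sub_zero] at hw'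
  rw [Γ.mem_idl]
  refine ⟨u', w', ?_⟩
  have hne : ell0 α β ≠ 0 := by
    intro h
    have h1 := congrArg (eval ![0, 0, 1]) h
    simp [ell0] at h1
  apply mul_left_cancel₀ hne
  rw [← huw]
  linear_combination (-G) * hu' - Γ.F * hw'

/-- Noether's theorem -/
theorem noether {G B : Sx} {d n' : ℕ} (hG : G.IsHomogeneous d) (hGF : ¬ Γ.F ∣ G)
    (hB : B.IsHomogeneous n') (h : ∀ x, Γ.ord x G ≤ Γ.ord x B) : B ∈ Γ.idl G := by
  obtain ⟨D, hD⟩ := Γ.exists_div hG hGF
  obtain ⟨α, β, hαβ⟩ := exists_general (D.toFinset.image Pt.rep) (by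
    intro v hv
    obtain ⟨p, -, rfl⟩ := Finset.mem_image.1 hv
    exact p.rep_ne)
  have h0 : ∀ v : Fin 3 → ℂ, v ≠ 0 → eval v Γ.F = 0 → eval v G = 0 →
      v 2 - α * v 0 - β * v 1 ≠ 0 := by
    intro v hv hvF hvG hcon
    have h1 : 1 ≤ Γ.ord (Γ.mkPt v hv hvF) G := by
      rw [ord, LP.one_le_ord_iff, Γ.eval_rep_mkPt hG]
      exact hvG
    rw [hD] at h1
    have h2 : 1 ≤ D.count (Γ.mkPt v hv hvF) := by exact_mod_cast h1
    have h3 := hαβ (Γ.mkPt v hv hvF).rep (Finset.mem_image_of_mem _ (by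
      rw [Multiset.mem_toFinset]
      exact Multiset.one_le_count_iff_mem.1 h2))
    obtain ⟨a, ha, ha'⟩ := Γ.rep_mkPt_smul (h0 := hv) (hF := hvF)
    apply h3
    rw [ha']
    simp only [Pi.smul_apply, smul_eq_mul]
    linear_combination a * hcon
  let K : Ideal Sx := Submodule.comap (LinearMap.toSpanSingleton Sx Sx B) (Γ.idl G)
  have hK : ∀ P, P ∈ K ↔ P * B ∈ Γ.idl G := fun P => Iff.rfl
  obtain ⟨N, hN⟩ := pow_mem_of_zeros' K (P := ell0 α β) (by
    intro v hv
    by_contra hv0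
    by_cases hvF : eval v Γ.F = 0
    · obtain ⟨P, ⟨n₁, hPh⟩, hP, hPB⟩ := (Γ.lp (Γ.mkPt v hv0 hvF)).local_noether hG hB
        (Γ.ord_ne_top hG hGF _) (h _)
      rw [ne_eq, Γ.eval_rep_mkPt hPh] at hP
      exact hP (hv P ((hK P).2 hPB))
    · apply hvF
      apply hv
      rw [hK, Γ.mem_idl]
      exact ⟨0, B, by ring⟩) (by simp [ell0])
  rw [hK] at hN
  induction N with
  | zero => simpa using hN
  | succ N ih =>
    apply ih
    rw [pow_succ', mul_assoc] at hN
    exact Γ.cancel hG hGF h0 hN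

theorem noether_form {G B : Sx} {d n : ℕ} (hG : G.IsHomogeneous d) (hGF : ¬ Γ.F ∣ G)
    (hB : B.IsHomogeneous n) (hd : d ≤ n) (hm : Γ.m ≤ n) (h : ∀ x, Γ.ord x G ≤ Γ.ord x B) :
    ∃ u : Sx, u.IsHomogeneous (n - d) ∧ ∀ x, Γ.ord x B = Γ.ord x u + Γ.ord x G := by
  obtain ⟨u, w, hu, hw, huw⟩ := Γ.mem_idl_homog hG hB hd hm (Γ.noether hG hGF hB h)
  refine ⟨u, hu, fun x => ?_⟩
  have h1 : (Γ.lp x).ord B = (Γ.lp x).ord (u * G) := (Γ.lp x).ord_congr huw.symm
  rw [ord, h1, LP.ord_mul]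
  rfl

/-- Bezout's theorem -/
theorem bezout {G : Sx} {d : ℕ} (hG : G.IsHomogeneous d) (hGF : ¬ Γ.F ∣ G)
    {D : Multiset Γ.Pt} (hD : ∀ x, Γ.ord x G = D.count x) : D.card = d * Γ.m := by
  apply le_antisymm (Γ.bezout_le hG hGF (fun x => (hD x).ge))
  have h1 := Γ.finrank_J hG hGF 0
  have h2 : Γ.W (d + Γ.m + 0) D ≤ Γ.J G (d + Γ.m + 0) := by
    intro B hB
    refine ⟨hB.1, ?_⟩
    apply Γ.noether hG hGF hB.1
    intro x
    rw [hD]
    exact hB.2 x
  have : Module.Finite ℂ (Γ.J G (d + Γ.m + 0)) := finite_of_le inf_le_left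
  have h3 := Submodule.finrank_mono h2
  have h4 := Γ.finrank_le_W (d + Γ.m + 0) D
  omega

/-- multiples of `F` of degree `e` -/
noncomputable def MF (e : ℕ) : Submodule ℂ Sx := (Hn (e - Γ.m)).map (LinearMap.mulRight ℂ Γ.F)

theorem mem_MF {e : ℕ} (he : Γ.m ≤ e) {B : Sx} (hB : B.IsHomogeneous e) (h : Γ.F ∣ B) :
    B ∈ Γ.MF e := by
  obtain ⟨K, rfl⟩ := h
  rw [MF, Submodule.mem_map]
  refine ⟨homogeneousComponent (e - Γ.m) K, homogeneousComponent_isHomogeneous _ _, ?_⟩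
  have h1 := homogeneousComponent_eq_self hB
  rw [mul_comm, homogeneousComponent_mul_right _ _ Γ.hF he] at h1
  rw [LinearMap.mulRight_apply, h1, mul_comm]

theorem finrank_MF_le (e : ℕ) : Module.finrank ℂ (Γ.MF e) ≤ (e - Γ.m + 2).choose 2 := by
  rw [← finrank_hom]
  exact Submodule.finrank_map_le _ _

instance (e : ℕ) : Module.Finite ℂ (Γ.MF e) := by
  rw [MF]
  infer_instance

theorem dvd_of_mem_MF {e : ℕ} {B : Sx} (h : B ∈ Γ.MF e) : Γ.F ∣ B := by
  obtain ⟨K, -, rfl⟩ := h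
  exact Dvd.intro_left K rfl

/-- Riemann's inequality -/
theorem riemann {e : ℕ} (he : Γ.m ≤ e) {A : Multiset Γ.Pt} (hA : A.card + Γ.g ≤ Γ.m * e) :
    ∃ D : Sx, D.IsHomogeneous e ∧ ¬ Γ.F ∣ D ∧ Γ.LeDiv A D := by
  by_contra hcon
  push Not at hcon
  have h1 : Γ.W e A ≤ Γ.MF e := by
    intro B hB
    apply Γ.mem_MF he hB.1
    by_contra hdvd
    exact hcon B hB.1 hdvd hB.2
  have h2 := Submodule.finrank_mono h1
  have h3 := Γ.finrank_MF_le e
  have h4 := Γ.finrank_le_W e A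
  have h5 := genus_id Γ.hm (e - Γ.m)
  have h6 : Γ.m + (e - Γ.m) = e := by omega
  rw [h6] at h5
  have h7 : Γ.g = (Γ.m - 1).choose 2 := rfl
  omega

theorem riemann2 {e : ℕ} (he : Γ.m ≤ e) {A : Multiset Γ.Pt} (hA : A.card + Γ.g + 1 ≤ Γ.m * e)
    {D : Sx} (hD : D.IsHomogeneous e) :
    ∃ T : Sx, T.IsHomogeneous e ∧ Γ.LeDiv A T ∧ ∀ c : ℂ, ¬ Γ.F ∣ T - C c * D := by
  by_contra hcon
  push Not at hcon
  have h1 : Γ.W e A ≤ Submodule.span ℂ {D} ⊔ Γ.MF e := by
    intro B hB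
    obtain ⟨c, hc⟩ := hcon B hB.1 hB.2
    rw [Submodule.mem_sup]
    refine ⟨C c * D, ?_, B - C c * D, ?_, by ring⟩
    · rw [← smul_eq_C_mul]
      exact Submodule.smul_mem _ _ (Submodule.mem_span_singleton_self D)
    · apply Γ.mem_MF he _ hc
      apply hB.1.sub
      simpa using (isHomogeneous_C (Fin 3) c).mul hD
  have h2 := Submodule.finrank_mono h1
  have h3 := Γ.finrank_MF_le e
  have h4 := Γ.finrank_le_W e A
  have h5 := genus_id Γ.hm (e - Γ.m)
  have h6 : Γ.m + (e - Γ.m) = e := by omega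
  rw [h6] at h5
  have h7 : Γ.g = (Γ.m - 1).choose 2 := rfl
  have h8 := Submodule.finrank_add_le_finrank_add_finrank (Submodule.span ℂ {D}) (Γ.MF e)
  have h9 : Module.finrank ℂ (Submodule.span ℂ ({D} : Set Sx)) ≤ 1 := by
    have := finrank_span_le_card (R := ℂ) ({D} : Set Sx)
    simpa using this
  omega

end Curve

end Pool.Agent.TH166.TP
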