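import Mathlib
import Pool.Agent.TH166.TP.F

set_option autoImplicit false

/-!
# Moving points within a linear system
-/

open MvPolynomial Filter Topology
open scoped Classical ContDiff

namespace Pool.Agent.TH166.TP

theorem order_pow_id (k : ℕ) : analyticOrderAt ((fun τ : ℂ => τ) ^ k) 0 = k := by
  rw [analyticOrderAt_pow (f := fun τ : ℂ => τ) analyticAt_id]
  have h5 : analyticOrderAt (fun τ : ℂ => τ) 0 = 1 := analyticOrderAt_id
  rw [h5]
  simp

theorem eventually_ne' {ι X : Type*} [TopologicalSpace X] [T2Space X] {l : Filter ι}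
    {f g : ι → X} {a b : X} (hf : Tendsto f l (𝓝 a)) (hg : Tendsto g l (𝓝 b)) (hab : a ≠ b) :
    ∀ᶠ x in l, f x ≠ g x := by
  have h1 : IsOpen {p : X × X | p.1 ≠ p.2} := isOpen_ne_fun continuous_fst continuous_snd
  exact (hf.prodMk_nhds hg).eventually (h1.mem_nhds hab)

namespace LP

variable {Γ : Curve} {v : Fin 3 → ℂ} (lp : LP Γ v)

theorem exists_factor {G : Sx} {k : ℕ} (h : (k : ℕ∞) ≤ lp.ord G) :
    ∃ a : ℂ → ℂ, AnalyticAt ℂ a 0 ∧ (∀ᶠ τ in 𝓝 0, eval (lp.γ τ) G = τ ^ k * a τ) ∧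
      (lp.ord G = k → a 0 ≠ 0) := by
  obtain ⟨a, ha, ha'⟩ := (natCast_le_analyticOrderAt (lp.analytic G)).1 h
  refine ⟨a, ha, ?_, ?_⟩
  · filter_upwards [ha'] with τ hτ
    simpa using hτ
  · intro hk h0
    have h1 : lp.ord G = analyticOrderAt (fun τ => τ ^ k * a τ) 0 := by
      apply analyticOrderAt_congr
      filter_upwards [ha'] with τ hτ
      simpa using hτ
    have h2 : analyticOrderAt (fun τ : ℂ => τ ^ k * a τ) 0 =
        analyticOrderAt ((fun τ : ℂ => τ) ^ k) 0 + analyticOrderAt a 0 :=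
      analyticOrderAt_mul (analyticAt_id.pow k) ha
    have h3 := order_pow_id k
    rw [h2, h3] at h1
    have h4 : 1 ≤ analyticOrderAt a 0 := by
      rw [Order.one_le_iff_ne_zero]
      exact ha.analyticOrderAt_ne_zero.2 h0
    rw [hk] at h1
    have h5 : (k : ℕ∞) + 1 ≤ k := by
      calc (k : ℕ∞) + 1 ≤ k + analyticOrderAt a 0 := by gcongr
        _ = k := h1.symm
    have h6 : k + 1 ≤ k := by exact_mod_cast h5
    omega

/-- a family of zeros of `D - c T` near a simple residual zero of `D` -/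
theorem exists_zero_fun {D T : Sx} {k : ℕ} (hD : lp.ord D = (k + 1 : ℕ))
    (hT : (k : ℕ∞) ≤ lp.ord T) : ∃ θ : ℂ → ℂ, Tendsto θ (𝓝 0) (𝓝 0) ∧
      ∀ᶠ c in 𝓝 0, (θ c ≠ 0 → eval (lp.γ (θ c)) (D - C c * T) = 0) ∧
        (θ c = 0 → ((k + 1 : ℕ) : ℕ∞) ≤ lp.ord (D - C c * T)) := by
  obtain ⟨a, ha, ha1, ha2⟩ := lp.exists_factor hD.ge
  obtain ⟨b, hb, hb1, -⟩ := lp.exists_factor hT
  have ha0 := ha2 hD
  let f : ℂ × ℂ → ℂ := fun p => p.2 * a p.2 - p.1 * b p.2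
  have hfa : AnalyticAt ℂ f (0, 0) := by
    have h1 : AnalyticAt ℂ (fun p : ℂ × ℂ => a p.2) (0, 0) :=
      AnalyticAt.comp (g := a) (f := Prod.snd) ha analyticAt_snd
    have h2 : AnalyticAt ℂ (fun p : ℂ × ℂ => b p.2) (0, 0) :=
      AnalyticAt.comp (g := b) (f := Prod.snd) hb analyticAt_snd
    exact (analyticAt_snd.mul h1).sub (analyticAt_fst.mul h2)
  have hf0 : f (0, 0) = 0 := by simp [f]
  have hder : fderiv ℂ f (0, 0) (0, 1) = a 0 := by
    have h1 : HasDerivAt (fun y : ℂ => ((0 : ℂ), y)) ((0 : ℂ), (1 : ℂ)) 0 :=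
      (hasDerivAt_const (0 : ℂ) (0 : ℂ)).prodMk (hasDerivAt_id (0 : ℂ))
    have h2 : HasDerivAt (f ∘ fun y : ℂ => ((0 : ℂ), y)) (fderiv ℂ f (0, 0) (0, 1)) 0 :=
      (hfa.differentiableAt.hasFDerivAt).comp_hasDerivAt (0 : ℂ) h1
    have h3 : HasDerivAt (fun y : ℂ => y * a y) (1 * a 0 + 0 * deriv a 0) 0 :=
      (hasDerivAt_id (0 : ℂ)).mul ha.differentiableAt.hasDerivAt
    have h4 : (f ∘ fun y : ℂ => ((0 : ℂ), y)) = fun y => y * a y := by
      funext y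
      simp [f]
    rw [h4] at h2
    rw [h2.unique h3]
    ring
  obtain ⟨θ, hθ, hθ0, hθ1, -⟩ := ift2 hfa.contDiffAt hf0 (by rw [hder]; exact ha0)
  have hθt : Tendsto θ (𝓝 0) (𝓝 0) := by
    have := hθ.continuousAt.tendsto
    rwa [hθ0] at this
  refine ⟨θ, hθt, ?_⟩
  filter_upwards [hθ1, hθt.eventually ha1, hθt.eventually hb1] with c hc hc1 hc2
  simp only [f] at hc
  constructor
  · intro _
    rw [map_sub, map_mul, eval_C, hc1, hc2, pow_succ]
    linear_combination (θ c) ^ k * hc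
  · intro h0
    rw [h0] at hc
    have h1 : lp.ord (D - C c * T) = analyticOrderAt (fun τ => τ ^ k * (τ * a τ - c * b τ)) 0 := by
      apply analyticOrderAt_congr
      filter_upwards [ha1, hb1] with τ h1 h2
      rw [map_sub, map_mul, eval_C, h1, h2]
      ring
    have h6 : AnalyticAt ℂ (fun τ => τ * a τ - c * b τ) 0 :=
      (analyticAt_id.mul ha).sub (analyticAt_const.mul hb)
    have h2 : analyticOrderAt (fun τ : ℂ => τ ^ k * (τ * a τ - c * b τ)) 0 =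
        analyticOrderAt ((fun τ : ℂ => τ) ^ k) 0 +
          analyticOrderAt (fun τ : ℂ => (τ * a τ - c * b τ)) 0 :=
      analyticOrderAt_mul (analyticAt_id.pow k) h6
    have h3 := order_pow_id k
    rw [h1, h2, h3, Nat.cast_add, Nat.cast_one]
    have h4 : 1 ≤ analyticOrderAt (fun τ : ℂ => (τ * a τ - c * b τ)) 0 := by
      rw [Order.one_le_iff_ne_zero]
      exact h6.analyticOrderAt_ne_zero.2 hc
    gcongr

/-- the value of `c` for which `D - c T` vanishes at a nearby point -/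
theorem exists_c_fun {D T : Sx} {k : ℕ} (hD : lp.ord D = (k + 1 : ℕ))
    (hT : lp.ord T = k) : ∃ c : ℂ → ℂ, Tendsto c (𝓝 0) (𝓝 0) ∧
      ∀ᶠ τ in 𝓝 0, (τ ≠ 0 → eval (lp.γ τ) (D - C (c τ) * T) = 0) ∧
        (τ = 0 → ((k + 1 : ℕ) : ℕ∞) ≤ lp.ord (D - C (c τ) * T)) := by
  obtain ⟨a, ha, ha1, -⟩ := lp.exists_factor hD.ge
  obtain ⟨b, hb, hb1, hb2⟩ := lp.exists_factor hT.ge
  have hb0 := hb2 hT
  refine ⟨fun τ => τ * a τ / b τ, ?_, ?_⟩
  · have h1 : ContinuousAt (fun τ => τ * a τ / b τ) 0 :=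
      (continuousAt_id.mul ha.continuousAt).div hb.continuousAt hb0
    have h2 := h1.tendsto
    simpa using h2
  · filter_upwards [ha1, hb1, hb.continuousAt.eventually_ne hb0] with τ h1 h2 h3
    constructor
    · intro _
      rw [map_sub, map_mul, eval_C, h1, h2]
      field_simp
      ring
    · intro h0
      rw [h0]
      simp only [zero_mul, zero_div, C_0, sub_zero]
      exact hD.ge

end LP

namespace Curve

variable (Γ : Curve)

/-- linear equivalence of effective divisors -/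
def Eqv (A B : Multiset Γ.Pt) : Prop := ∃ (d : ℕ) (P Q : Sx), P.IsHomogeneous d ∧
  Q.IsHomogeneous d ∧ ¬ Γ.F ∣ P ∧ ¬ Γ.F ∣ Q ∧
  ∀ x, Γ.ord x P + B.count x = Γ.ord x Q + A.count x

theorem not_dvd_mul {P Q : Sx} (hP : ¬ Γ.F ∣ P) (hQ : ¬ Γ.F ∣ Q) : ¬ Γ.F ∣ P * Q := by
  intro h
  rcases Γ.prime.dvd_or_dvd h with h | h
  · exact hP h
  · exact hQ h

theorem ord_mul (x : Γ.Pt) (P Q : Sx) : Γ.ord x (P * Q) = Γ.ord x P + Γ.ord x Q :=
  (Γ.lp x).ord_mul P Q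

/-- linear equivalence as an additive congruence -/
def con : AddCon (Multiset Γ.Pt) where
  r := Γ.Eqv
  iseqv := by
    refine ⟨fun A => ?_, fun {A B} h => ?_, fun {A B E} h h' => ?_⟩
    · refine ⟨0, 1, 1, isHomogeneous_one _ _, isHomogeneous_one _ _, ?_, ?_, fun _ => rfl⟩
      · intro h; exact Γ.not_isUnit (isUnit_of_dvd_one h)
      · intro h; exact Γ.not_isUnit (isUnit_of_dvd_one h)
    · obtain ⟨d, P, Q, h1, h2, h3, h4, h5⟩ := h
      exact ⟨d, Q, P, h2, h1, h4, h3, fun x => (h5 x).symm⟩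
    · obtain ⟨d, P, Q, h1, h2, h3, h4, h5⟩ := h
      obtain ⟨d', P', Q', h1', h2', h3', h4', h5'⟩ := h'
      refine ⟨d + d', P * P', Q * Q', h1.mul h1', h2.mul h2', Γ.not_dvd_mul h3 h3',
        Γ.not_dvd_mul h4 h4', fun x => ?_⟩
      rw [Γ.ord_mul, Γ.ord_mul]
      calc Γ.ord x P + Γ.ord x P' + E.count x = Γ.ord x P + (Γ.ord x P' + E.count x) := by ring
        _ = (Γ.ord x P + B.count x) + Γ.ord x Q' := by rw [h5']; ring
        _ = _ := by rw [h5]; ring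
  add' := by
    intro A B A' B' h h'
    obtain ⟨d, P, Q, h1, h2, h3, h4, h5⟩ := h
    obtain ⟨d', P', Q', h1', h2', h3', h4', h5'⟩ := h'
    refine ⟨d + d', P * P', Q * Q', h1.mul h1', h2.mul h2', Γ.not_dvd_mul h3 h3',
        Γ.not_dvd_mul h4 h4', fun x => ?_⟩
    rw [Γ.ord_mul, Γ.ord_mul, Multiset.count_add, Multiset.count_add, Nat.cast_add, Nat.cast_add]
    calc Γ.ord x P + Γ.ord x P' + (B.count x + B'.count x) =
        (Γ.ord x P + B.count x) + (Γ.ord x P' + B'.count x) := by ring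
      _ = _ := by rw [h5, h5']; ring

/-- class of a divisor -/
def cl (A : Multiset Γ.Pt) : Γ.con.Quotient := (A : Γ.con.Quotient)

theorem cl_eq_iff {A B : Multiset Γ.Pt} : Γ.cl A = Γ.cl B ↔ Γ.Eqv A B :=
  AddCon.eq Γ.con

theorem cl_add (A B : Multiset Γ.Pt) : Γ.cl (A + B) = Γ.cl A + Γ.cl B := rfl

/-- points of a nonempty open set -/
theorem infinite_of_isOpen {U : Set Γ.Pt} (hU : IsOpen U) (hne : U.Nonempty) : U.Infinite := by
  obtain ⟨p, hp⟩ := hne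
  intro hfin
  have h1 : Tendsto (Γ.lp p).loc (𝓝 0) (𝓝 p) := by
    have := (Γ.lp p).tendsto_loc
    rwa [Γ.lp_pt] at this
  have h2 : ∀ᶠ τ in 𝓝 0, (Γ.lp p).loc τ ∈ U := h1.eventually (hU.mem_nhds hp)
  have h3 : {τ : ℂ | (Γ.lp p).loc τ ∈ U ∧ (Γ.lp p).ψ ((Γ.lp p).loc τ) = τ} ∈ 𝓝 (0 : ℂ) :=
    h2.and (Γ.lp p).ψ_loc
  have h4 : Set.Infinite {τ : ℂ | (Γ.lp p).loc τ ∈ U ∧ (Γ.lp p).ψ ((Γ.lp p).loc τ) = τ} :=
    infinite_of_mem_nhds 0 h3
  apply h4
  apply (hfin.image (Γ.lp p).ψ).subset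
  rintro τ ⟨h5, h6⟩
  exact ⟨_, h5, h6⟩

theorem res_lemma {R : Multiset Γ.Pt} {q : Γ.Pt} {B : Sx} {n : ℕ} (hB : B.IsHomogeneous n) {θ : ℂ}
    (h1 : eval ((Γ.lp q).γ θ) Γ.F = 0)
    (h2 : θ ≠ 0 → eval ((Γ.lp q).γ θ) B = 0)
    (h3 : θ = 0 → ((R.count q + 1 : ℕ) : ℕ∞) ≤ Γ.ord q B)
    (h4 : (Γ.lp q).loc θ ≠ q → (Γ.lp q).loc θ ∉ R)
    (h5 : (Γ.lp q).ψ ((Γ.lp q).loc θ) = θ) :
    ((R.count ((Γ.lp q).loc θ) + 1 : ℕ) : ℕ∞) ≤ Γ.ord ((Γ.lp q).loc θ) B := by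
  by_cases h0 : θ = 0
  · subst h0
    rw [LP.loc_zero, Γ.lp_pt]
    exact h3 rfl
  · have hne : (Γ.lp q).loc θ ≠ q := by
      intro h
      apply h0
      have h6 : (Γ.lp q).ψ ((Γ.lp q).loc 0) = 0 := by
        rw [LP.loc_eq _ (by rw [LP.γ0]; exact q.F_rep), LP.ψ_mkPt, LP.γi, LP.γk,
          div_self (Γ.lp q).ch.vi]
        ring
      rw [LP.loc_zero, Γ.lp_pt] at h6
      rw [h, h6] at h5
      exact h5.symm
    rw [Multiset.count_eq_zero_of_notMem (h4 hne), zero_add, Nat.cast_one]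
    rw [ord, LP.one_le_ord_iff, LP.loc_eq _ h1, Γ.eval_rep_mkPt hB]
    exact h2 h0

theorem L0 (t : Γ.Pt) {U : Set Γ.Pt} (hU : IsOpen U) (hne : U.Nonempty) :
    ∃ (n : ℕ) (p : Fin n → Γ.Pt), (∀ i, p i ∈ U) ∧ ∀ O : Fin n → Set Γ.Pt,
      (∀ i, O i ∈ 𝓝 (p i)) → ∀ᶠ t' in 𝓝 t, ∃ p' : Fin n → Γ.Pt, (∀ i, p' i ∈ O i) ∧
        Γ.Eqv (t ::ₘ Finset.univ.val.map p) (t' ::ₘ Finset.univ.val.map p') := by
  have hm := Γ.hm
  set e := Γ.g + Γ.m + 1 with he
  have hme : Γ.g + 1 ≤ Γ.m * e := by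
    calc Γ.g + 1 ≤ e := by omega
      _ ≤ Γ.m * e := Nat.le_mul_of_pos_left e hm
  set n := Γ.m * e - 1 - Γ.g with hn
  have hinf : (U \ {t}).Infinite := (Γ.infinite_of_isOpen hU hne).sdiff (Set.finite_singleton t)
  let f := hinf.natEmbedding
  let p : Fin n → Γ.Pt := fun i => (f i).1
  have hpU : ∀ i, p i ∈ U := fun i => (f i).2.1
  have hpt : ∀ i, p i ≠ t := fun i => (f i).2.2
  have hpinj : Function.Injective p := by
    intro i j hij
    exact Fin.ext (f.injective (Subtype.ext hij))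
  set M : Multiset Γ.Pt := t ::ₘ Finset.univ.val.map p with hM
  have hMcard : M.card = n + 1 := by simp [hM]
  have hMnd : M.Nodup := by
    rw [hM, Multiset.nodup_cons]
    refine ⟨?_, Finset.univ.nodup.map hpinj⟩
    intro h
    obtain ⟨i, -, hi⟩ := Multiset.mem_map.1 h
    exact hpt i hi
  obtain ⟨D, hD, hDF, hDM⟩ := Γ.riemann (e := e) (by omega) (A := M) (by omega)
  obtain ⟨DD, hDD⟩ := Γ.exists_div hD hDF
  have hDDcard := Γ.bezout hD hDF hDD
  have hle : M ≤ DD := by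
    rw [Multiset.le_iff_count]
    intro x
    have := hDM x
    rw [hDD] at this
    exact_mod_cast this
  obtain ⟨R, hR⟩ := Multiset.le_iff_exists_add.1 hle
  have hRcard : R.card = Γ.g := by
    rw [hR, Multiset.card_add, hMcard, mul_comm] at hDDcard
    omega
  obtain ⟨T, hT, hTR, hTt⟩ := Γ.exists_form' t R (n := e) (by omega)
  have hTF : ¬ Γ.F ∣ T := by
    intro h
    have := (Γ.lp t).ord_of_dvd h
    rw [ord, this] at hTt
    exact ENat.top_ne_natCast _ hTt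
  have hordM : ∀ x ∈ M, Γ.ord x D = (R.count x + 1 : ℕ) := by
    intro x hx
    rw [hDD, hR, Multiset.count_add, Multiset.count_eq_one_of_mem hMnd hx, add_comm]
  have hpM : ∀ i, p i ∈ M := by
    intro i
    rw [hM, Multiset.mem_cons]
    right
    exact Multiset.mem_map_of_mem p (Finset.mem_univ_val i)
  have htM : t ∈ M := Multiset.mem_cons_self _ _
  obtain ⟨c, hc0, hc⟩ := (Γ.lp t).exists_c_fun (hordM t htM) hTt
  choose θ hθ0 hθ using fun i => (Γ.lp (p i)).exists_zero_fun (hordM (p i) (hpM i)) (hTR (p i))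
  refine ⟨n, p, hpU, fun O hO => ?_⟩
  have hnt : 𝓝 t = map (Γ.lp t).loc (𝓝 0) := by
    conv_lhs => rw [← Γ.lp_pt t]
    exact (Γ.lp t).nhds_pt
  have htend_t : Tendsto (Γ.lp t).loc (𝓝 0) (𝓝 t) := by rw [hnt]; exact tendsto_map
  have hθc : ∀ i, Tendsto (fun τ => θ i (c τ)) (𝓝 0) (𝓝 0) := fun i => (hθ0 i).comp hc0
  let p' : ℂ → Fin n → Γ.Pt := fun τ i => (Γ.lp (p i)).loc (θ i (c τ))
  have hp't : ∀ i, Tendsto (fun τ => p' τ i) (𝓝 0) (𝓝 (p i)) := by
    intro i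
    have := (Γ.lp (p i)).tendsto_loc.comp (hθc i)
    rwa [Γ.lp_pt] at this
  have hfinR : ∀ q : Γ.Pt, ∀ᶠ x in 𝓝 q, x ≠ q → x ∉ R := by
    intro q
    have h1 : IsClosed {x | x ∈ R ∧ x ≠ q} := by
      apply Set.Finite.isClosed
      apply (R.toFinset.finite_toSet).subset
      intro x hx
      rw [Finset.mem_coe, Multiset.mem_toFinset]
      exact hx.1
    have h2 : {x | x ∈ R ∧ x ≠ q}ᶜ ∈ 𝓝 q := h1.isOpen_compl.mem_nhds (by simp)
    filter_upwards [h2] with x hx hxq hxR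
    exact hx ⟨hxR, hxq⟩
  rw [hnt, eventually_map]
  have e1 : ∀ᶠ τ in 𝓝 0, ∀ i, p' τ i ∈ O i := eventually_all.2 fun i =>
    (hp't i).eventually (hO i)
  have e2 : ∀ᶠ τ in 𝓝 0, ∀ i j, i ≠ j → p' τ i ≠ p' τ j := by
    refine eventually_all.2 fun i => eventually_all.2 fun j => ?_
    by_cases hij : i = j
    · exact Eventually.of_forall fun _ h => absurd hij h
    · filter_upwards [eventually_ne' (hp't i) (hp't j) (fun h => hij (hpinj h))] with τ hτ _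
      exact hτ
  have e3 : ∀ᶠ τ in 𝓝 0, ∀ i, p' τ i ≠ (Γ.lp t).loc τ := eventually_all.2 fun i =>
    eventually_ne' (hp't i) htend_t (hpt i)
  have e4 : ∀ᶠ τ in 𝓝 0, ∀ i, p' τ i ≠ p i → p' τ i ∉ R := eventually_all.2 fun i =>
    (hp't i).eventually (hfinR (p i))
  have e5 : ∀ᶠ τ in 𝓝 0, (Γ.lp t).loc τ ≠ t → (Γ.lp t).loc τ ∉ R :=
    htend_t.eventually (hfinR t)
  have e6 : ∀ᶠ τ in 𝓝 0, ∀ i, (θ i (c τ) ≠ 0 →
      eval ((Γ.lp (p i)).γ (θ i (c τ))) (D - C (c τ) * T) = 0) ∧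
        (θ i (c τ) = 0 → ((R.count (p i) + 1 : ℕ) : ℕ∞) ≤
          (Γ.lp (p i)).ord (D - C (c τ) * T)) := eventually_all.2 fun i =>
    hc0.eventually (hθ i)
  have e7 : ∀ᶠ τ in 𝓝 0, ∀ i, eval ((Γ.lp (p i)).γ (θ i (c τ))) Γ.F = 0 :=
    eventually_all.2 fun i => (hθc i).eventually (Γ.lp (p i)).γF
  have e8 : ∀ᶠ τ in 𝓝 0, ∀ i, (Γ.lp (p i)).ψ (p' τ i) = θ i (c τ) :=
    eventually_all.2 fun i => (hθc i).eventually (Γ.lp (p i)).ψ_loc
  filter_upwards [e1, e2, e3, e4, e5, e6, e7, e8, hc, (Γ.lp t).γF, (Γ.lp t).ψ_loc] with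
    τ g1 g2 g3 g4 g5 g6 g7 g8 g9 g10 g11
  refine ⟨p' τ, g1, ?_⟩
  set B : Sx := D - C (c τ) * T with hBdef
  have hB : B.IsHomogeneous e := by
    apply hD.sub
    simpa using (isHomogeneous_C (Fin 3) (c τ)).mul hT
  set M' : Multiset Γ.Pt := (Γ.lp t).loc τ ::ₘ Finset.univ.val.map (p' τ) with hM'
  have hM'card : M'.card = n + 1 := by simp [hM']
  have hM'nd : M'.Nodup := by
    rw [hM', Multiset.nodup_cons]
    refine ⟨?_, Finset.univ.nodup.map ?_⟩
    · intro h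
      obtain ⟨i, -, hi⟩ := Multiset.mem_map.1 h
      exact g3 i hi
    · intro i j hij
      by_contra hne'
      exact g2 i j hne' hij
  have hBF : ¬ Γ.F ∣ B := by
    intro h
    obtain ⟨w, hw⟩ := h
    by_cases hc' : c τ = 0
    · apply hDF
      rw [hBdef, hc', C_0, zero_mul, sub_zero] at hw
      exact ⟨w, hw⟩
    · have h1 : (Γ.lp t).ord D = (Γ.lp t).ord (C (c τ) * T) := by
        apply (Γ.lp t).ord_congr (w := w)
        rw [hBdef] at hw
        linear_combination hw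
      rw [LP.ord_mul, LP.ord_C _ hc', zero_add] at h1
      have h2 := hordM t htM
      rw [ord] at h2 hTt
      rw [h1, hTt] at h2
      have h3 : R.count t = R.count t + 1 := by exact_mod_cast h2
      omega
  have hRB : ∀ x, (R.count x : ℕ∞) ≤ Γ.ord x B := by
    intro x
    have h1 : (R.count x : ℕ∞) ≤ Γ.ord x D := by
      rw [hDD, hR, Multiset.count_add]
      exact_mod_cast Nat.le_add_left _ _
    have h2 : (R.count x : ℕ∞) ≤ (Γ.lp x).ord (C (-c τ) * T) := by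
      rw [LP.ord_mul]
      exact (hTR x).trans le_add_self
    have h3 : B = D + C (-c τ) * T := by
      rw [hBdef, C_neg]; ring
    rw [h3]
    exact (le_min h1 h2).trans ((Γ.lp x).le_ord_add _ _)
  have hM'B : Γ.LeDiv (R + M') B := by
    intro x
    rw [Multiset.count_add]
    by_cases hx : x ∈ M'
    · rw [Multiset.count_eq_one_of_mem hM'nd hx]
      rw [hM', Multiset.mem_cons] at hx
      rcases hx with rfl | hx
      · exact Γ.res_lemma hB g10 g9.1 g9.2 g5 g11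
      · obtain ⟨i, -, rfl⟩ := Multiset.mem_map.1 hx
        exact Γ.res_lemma hB (g7 i) (g6 i).1 (g6 i).2 (g4 i) (g8 i)
    · rw [Multiset.count_eq_zero_of_notMem hx, add_zero]
      exact hRB x
  obtain ⟨BB, hBB⟩ := Γ.exists_div hB hBF
  have hBBcard := Γ.bezout hB hBF hBB
  have hle' : R + M' ≤ BB := by
    rw [Multiset.le_iff_count]
    intro x
    have := hM'B x
    rw [hBB] at this
    exact_mod_cast this
  have heq : R + M' = BB := by
    apply Multiset.eq_of_le_of_card_le hle'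
    rw [hBBcard, ← hDDcard, hR, Multiset.card_add, Multiset.card_add, hMcard, hM'card]
    omega
  refine ⟨e, D, B, hD, hB, hDF, hBF, fun x => ?_⟩
  rw [hDD, hBB, hR, ← heq, Multiset.count_add, Multiset.count_add]
  push_cast
  ring

end Curve

end Pool.Agent.TH166.TP
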