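import Mathlib
import Pool.Agent.TH166.TP.G

set_option autoImplicit false

/-!
# Connectedness, and forms with all their zeros in a given open set
-/

open MvPolynomial Filter Topology
open scoped Classical ContDiff

namespace Pool.Agent.TH166.TP

namespace Curve

variable (Γ : Curve)

/-- the value of a quotient of forms of the same degree -/
noncomputable def rat (T D : Sx) (x : Γ.Pt) : ℂ := eval x.rep T / eval x.rep D

theorem rat_mkPt {n : ℕ} {T D : Sx} (hT : T.IsHomogeneous n) (hD : D.IsHomogeneous n)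
    {w : Fin 3 → ℂ} {h0 : w ≠ 0} {hF : eval w Γ.F = 0} :
    Γ.rat T D (Γ.mkPt w h0 hF) = eval w T / eval w D := by
  obtain ⟨a, ha, ha'⟩ := Γ.rep_mkPt_smul (h0 := h0) (hF := hF)
  rw [rat, ha', eval_smul hT, eval_smul hD, mul_div_mul_left _ _ (pow_ne_zero _ ha)]

theorem dvd_of_ord_top {n : ℕ} {T : Sx} (hT : T.IsHomogeneous n) {x : Γ.Pt}
    (h : Γ.ord x T = ⊤) : Γ.F ∣ T := by
  by_contra hcon
  exact Γ.ord_ne_top hT hcon x h

/-- maximum principle for a quotient of forms -/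
theorem dvd_of_max {n : ℕ} {T D : Sx} (hT : T.IsHomogeneous n) (hD : D.IsHomogeneous n)
    {q : Γ.Pt} (hq : eval q.rep D ≠ 0)
    (hmax : ∀ᶠ x in 𝓝 q, ‖Γ.rat T D x‖ ≤ ‖Γ.rat T D q‖) :
    Γ.F ∣ T - C (Γ.rat T D q) * D := by
  set lp := Γ.lp q with hlp
  let h : ℂ → ℂ := fun τ => eval (lp.γ τ) T / eval (lp.γ τ) D
  have hD0 : eval (lp.γ 0) D ≠ 0 := by rw [lp.γ0]; exact hq
  have hh0 : h 0 = Γ.rat T D q := by
    simp only [h]
    rw [lp.γ0]
    rfl
  have hhan : AnalyticAt ℂ h 0 := (lp.analytic T).div (lp.analytic D) hD0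
  have htend : Tendsto lp.loc (𝓝 0) (𝓝 q) := by
    have := lp.tendsto_loc
    rwa [hlp, Γ.lp_pt] at this
  have hloc : IsLocalMax (norm ∘ h) 0 := by
    filter_upwards [htend.eventually hmax, lp.γF] with τ h1 h2
    rw [lp.loc_eq h2, Γ.rat_mkPt hT hD] at h1
    simp only [Function.comp]
    rw [hh0]
    exact h1
  have hconst := Complex.eventually_eq_of_isLocalMax_norm
    (hhan.eventually_analyticAt.mono fun z hz => hz.differentiableAt) hloc
  have hne : ∀ᶠ τ in 𝓝 0, eval (lp.γ τ) D ≠ 0 := (lp.analytic D).continuousAt.eventually_ne hD0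
  apply Γ.dvd_of_ord_top (x := q) (n := n)
  · apply hT.sub
    simpa using (isHomogeneous_C (Fin 3) _).mul hD
  · rw [ord, LP.ord_eq_top_iff]
    filter_upwards [hconst, hne] with τ h1 h2
    rw [hh0] at h1
    rw [map_sub, map_mul, eval_C, ← h1]
    simp only [h]
    field_simp
    ring

theorem no_clopen {B : Set Γ.Pt} (hB : IsClopen B) {a : Γ.Pt} (ha : a ∉ B) : ¬ B.Nonempty := by
  intro hne
  have hm := Γ.hm
  set e := 2 * Γ.g + Γ.m + 1 with he
  have hme : 2 * Γ.g + 1 ≤ Γ.m * e := by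
    calc 2 * Γ.g + 1 ≤ e := by omega
      _ ≤ Γ.m * e := Nat.le_mul_of_pos_left e hm
  set M : Multiset Γ.Pt := Multiset.replicate (Γ.m * e - Γ.g) a with hM
  have hMcard : M.card = Γ.m * e - Γ.g := by simp [hM]
  obtain ⟨D, hD, hDF, hDM⟩ := Γ.riemann (e := e) (by omega) (A := M) (by omega)
  obtain ⟨DD, hDD⟩ := Γ.exists_div hD hDF
  have hDDcard := Γ.bezout hD hDF hDD
  have hle : M ≤ DD := by
    rw [Multiset.le_iff_count]
    intro x
    have := hDM x
    rw [hDD] at this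
    exact_mod_cast this
  obtain ⟨R, hR⟩ := Multiset.le_iff_exists_add.1 hle
  have hRcard : R.card = Γ.g := by
    rw [hR, Multiset.card_add, hMcard, mul_comm e] at hDDcard
    omega
  obtain ⟨T, hT, hTR, hTD⟩ := Γ.riemann2 (e := e) (by omega) (A := R) (by omega) hD
  -- local quotients
  have hloc : ∀ q : Γ.Pt, ∃ h : ℂ → ℂ, q ∈ B → AnalyticAt ℂ h 0 ∧
      (∀ᶠ τ in 𝓝 0, eval ((Γ.lp q).γ τ) T = h τ * eval ((Γ.lp q).γ τ) D) ∧
      ∀ᶠ τ in 𝓝 0, τ ≠ 0 → eval ((Γ.lp q).γ τ) D ≠ 0 := by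
    intro q
    by_cases hq : q ∈ B
    · have hqa : q ≠ a := by
        rintro rfl
        exact ha hq
      have h1 : (Γ.lp q).ord D = R.count q := by
        have := hDD q
        rw [hR, Multiset.count_add, hM, Multiset.count_replicate, if_neg (Ne.symm hqa),
          zero_add] at this
        exact this
      obtain ⟨u, hu, hu1, hu2⟩ := (Γ.lp q).exists_factor h1.ge
      obtain ⟨w, hw, hw1, -⟩ := (Γ.lp q).exists_factor (hTR q)
      have hu0 := hu2 h1
      refine ⟨fun τ => w τ / u τ, fun _ => ⟨hw.div hu hu0, ?_, ?_⟩⟩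
      · filter_upwards [hu1, hw1, hu.continuousAt.eventually_ne hu0] with τ g1 g2 g3
        rw [g1, g2]
        field_simp
      · filter_upwards [hu1, hu.continuousAt.eventually_ne hu0] with τ g1 g3 g4
        rw [g1]
        exact mul_ne_zero (pow_ne_zero _ g4) g3
    · exact ⟨0, fun h => absurd h hq⟩
  choose h hh using hloc
  let f : Γ.Pt → ℂ := fun q => h q 0
  have hnhds : ∀ q : Γ.Pt, 𝓝 q = map (Γ.lp q).loc (𝓝 0) := by
    intro q
    conv_lhs => rw [← Γ.lp_pt q]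
    exact (Γ.lp q).nhds_pt
  have hfh : ∀ q ∈ B, ∀ᶠ τ in 𝓝 0, f ((Γ.lp q).loc τ) = h q τ := by
    intro q hq
    obtain ⟨h1, h2, h3⟩ := hh q hq
    have h4 : ∀ᶠ τ in 𝓝 0, (Γ.lp q).loc τ ∈ B := by
      have : ∀ᶠ x in 𝓝 q, x ∈ B := hB.isOpen.mem_nhds hq
      rw [hnhds q, eventually_map] at this
      exact this
    filter_upwards [h2, h3, h4, (Γ.lp q).γF] with τ g2 g3 g4 g5
    by_cases hτ : τ = 0
    · subst hτ
      rw [LP.loc_zero, Γ.lp_pt]
    · obtain ⟨-, h2', -⟩ := hh _ g4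
      have h5 := h2'.self_of_nhds
      rw [LP.γ0] at h5
      have h6 := g3 hτ
      have h7 : eval ((Γ.lp q).loc τ).rep D ≠ 0 := by
        rw [LP.loc_eq _ g5, ne_eq, Γ.eval_rep_mkPt hD]
        exact h6
      have h8 : Γ.rat T D ((Γ.lp q).loc τ) = h ((Γ.lp q).loc τ) 0 := by
        rw [rat, h5]
        field_simp
      have h9 : Γ.rat T D ((Γ.lp q).loc τ) = h q τ := by
        rw [LP.loc_eq _ g5, Γ.rat_mkPt hT hD, g2]
        field_simp
      show h ((Γ.lp q).loc τ) 0 = h q τ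
      rw [← h8, h9]
  have hcont : ContinuousOn f B := by
    intro q hq
    apply ContinuousAt.continuousWithinAt
    show Tendsto f (𝓝 q) (𝓝 (h q 0))
    rw [hnhds q, tendsto_map'_iff]
    refine ((hh q hq).1.continuousAt.tendsto).congr' ?_
    filter_upwards [hfh q hq] with τ hτ
    exact hτ.symm
  obtain ⟨q, hq, hmax⟩ := hB.isClosed.isCompact.exists_isMaxOn hne hcont.norm
  obtain ⟨h1, h2, h3⟩ := hh q hq
  have hlocmax : IsLocalMax (norm ∘ h q) 0 := by
    have h4 : ∀ᶠ τ in 𝓝 0, (Γ.lp q).loc τ ∈ B := by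
      have : ∀ᶠ x in 𝓝 q, x ∈ B := hB.isOpen.mem_nhds hq
      rw [hnhds q, eventually_map] at this
      exact this
    filter_upwards [h4, hfh q hq] with τ g1 g2
    have := hmax g1
    simp only [Set.mem_ofPred_eq] at this
    simp only [Function.comp]
    rw [← g2]
    exact this
  have hconst := Complex.eventually_eq_of_isLocalMax_norm
    (h1.eventually_analyticAt.mono fun z hz => hz.differentiableAt) hlocmax
  apply hTD (h q 0)
  apply Γ.dvd_of_ord_top (x := q) (n := e)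
  · apply hT.sub
    simpa using (isHomogeneous_C (Fin 3) _).mul hD
  · rw [ord, LP.ord_eq_top_iff]
    filter_upwards [hconst, h2] with τ g1 g2
    rw [map_sub, map_mul, eval_C, ← g1, g2, sub_self]

instance : PreconnectedSpace Γ.Pt := by
  rw [preconnectedSpace_iff_clopen]
  intro s hs
  by_contra hcon
  push Not at hcon
  obtain ⟨h1, h2⟩ := hcon
  obtain ⟨a, ha⟩ := (Set.ne_univ_iff_exists_notMem s).1 h2
  exact Γ.no_clopen hs ha h1

end Curve

/-! ### An abstract semigroup argument -/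

theorem absorb {X : Type*} [TopologicalSpace X] [CompactSpace X] [PreconnectedSpace X]
    {M : Type*} [AddCommMonoid M] (cl : X → M) (U : Set X) (hU : IsOpen U) (hne : U.Nonempty)
    (S : AddSubmonoid M) (hS : ∀ x ∈ U, cl x ∈ S)
    (L0 : ∀ t : X, ∃ (n : ℕ) (p : Fin n → X), (∀ i, p i ∈ U) ∧ ∀ O : Fin n → Set X,
      (∀ i, O i ∈ 𝓝 (p i)) → ∀ᶠ t' in 𝓝 t, ∃ p' : Fin n → X, (∀ i, p' i ∈ O i) ∧
        cl t + ∑ i, cl (p i) = cl t' + ∑ i, cl (p' i)) :
    ∃ a ∈ S, ∀ t, cl t + a ∈ S := by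
  let good : Set X := {t | ∃ a ∈ S, ∀ᶠ t' in 𝓝 t, cl t' + a ∈ S}
  have hopen : IsOpen good := by
    rw [isOpen_iff_eventually]
    rintro t ⟨a, ha, ht⟩
    filter_upwards [ht.eventually_nhds] with t' ht'
    exact ⟨a, ha, ht'⟩
  have hclosed : IsClosed good := by
    apply isClosed_of_closure_subset
    intro t ht
    obtain ⟨n, p, hp, hL⟩ := L0 t
    choose m q hq hLq using fun i => L0 (p i)
    let V : Fin n → Set X := fun i => {x | ∃ q' : Fin (m i) → X, (∀ j, q' j ∈ U) ∧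
      cl (p i) + ∑ j, cl (q i j) = cl x + ∑ j, cl (q' j)}
    have hV : ∀ i, V i ∈ 𝓝 (p i) := fun i => hLq i (fun _ => U) (fun j => hU.mem_nhds (hq i j))
    have hE := hL (fun i => V i ∩ U) (fun i => inter_mem (hV i) (hU.mem_nhds (hp i)))
    obtain ⟨s, ⟨as, has, hs⟩, hs'⟩ :=
      ((mem_closure_iff_frequently.1 ht).and_eventually hE).exists
    obtain ⟨ps, hps, heqs⟩ := hs'
    have hs0 := hs.self_of_nhds
    refine ⟨as + (∑ i, cl (p i) + ∑ i, ∑ j, cl (q i j)), ?_, ?_⟩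
    · refine S.add_mem has (S.add_mem (sum_mem fun i _ => hS _ (hp i)) ?_)
      exact sum_mem fun i _ => sum_mem fun j _ => hS _ (hq i j)
    · filter_upwards [hE] with t' ht'
      obtain ⟨p', hp', heq⟩ := ht'
      choose q' hq' hqq' using fun i => (hp' i).1
      have h1 : cl t' + (as + (∑ i, cl (p i) + ∑ i, ∑ j, cl (q i j))) =
          (cl s + as) + (∑ i, cl (ps i) + ∑ i, ∑ j, cl (q' i j)) := by
        calc cl t' + (as + (∑ i, cl (p i) + ∑ i, ∑ j, cl (q i j)))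
            = cl t' + as + ∑ i, (cl (p i) + ∑ j, cl (q i j)) := by
              rw [Finset.sum_add_distrib, add_assoc]
          _ = cl t' + as + ∑ i, (cl (p' i) + ∑ j, cl (q' i j)) := by
              rw [Finset.sum_congr rfl fun i _ => hqq' i]
          _ = as + (cl t' + ∑ i, cl (p' i)) + ∑ i, ∑ j, cl (q' i j) := by
              rw [Finset.sum_add_distrib]; abel
          _ = as + (cl s + ∑ i, cl (ps i)) + ∑ i, ∑ j, cl (q' i j) := by
              rw [← heq, heqs]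
          _ = _ := by abel
      rw [h1]
      refine S.add_mem hs0 (S.add_mem (sum_mem fun i _ => hS _ (hps i).2) ?_)
      exact sum_mem fun i _ => sum_mem fun j _ => hS _ (hq' i j)
  have huniv : good = Set.univ := by
    apply IsClopen.eq_univ ⟨hclosed, hopen⟩
    obtain ⟨u, hu⟩ := hne
    refine ⟨u, 0, S.zero_mem, ?_⟩
    filter_upwards [hU.mem_nhds hu] with x hx
    rw [add_zero]
    exact hS x hx
  have hall : ∀ t : X, ∃ a ∈ S, ∀ᶠ t' in 𝓝 t, cl t' + a ∈ S := by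
    intro t
    have : t ∈ good := by rw [huniv]; trivial
    exact this
  choose a ha hN using hall
  obtain ⟨fs, hfs⟩ := CompactSpace.elim_nhds_subcover (fun t => {t' | cl t' + a t ∈ S}) hN
  refine ⟨∑ x ∈ fs, a x, sum_mem fun i _ => ha i, fun t => ?_⟩
  have ht : t ∈ ⋃ x ∈ fs, {t' | cl t' + a x ∈ S} := by rw [hfs]; trivial
  rw [Set.mem_iUnion₂] at ht
  obtain ⟨x, hx, hx'⟩ := ht
  rw [← Finset.add_sum_erase fs a hx, ← add_assoc]
  exact S.add_mem hx' (sum_mem fun i _ => ha i)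

namespace Curve

variable (Γ : Curve)

theorem cl_cons (t : Γ.Pt) (A : Multiset Γ.Pt) : Γ.cl (t ::ₘ A) = Γ.cl {t} + Γ.cl A := by
  rw [← Γ.cl_add]
  rfl

theorem cl_map {n : ℕ} (p : Fin n → Γ.Pt) :
    Γ.cl (Finset.univ.val.map p) = ∑ i, Γ.cl {p i} := by
  have h1 : ∀ s : Finset (Fin n), Γ.cl (s.val.map p) = ∑ i ∈ s, Γ.cl {p i} := by
    intro s
    induction s using Finset.induction_on with
    | empty => rfl
    | insert i s hi ih =>
      rw [Finset.insert_val_of_notMem hi, Multiset.map_cons, Γ.cl_cons, ih,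
        Finset.sum_insert hi]
  exact h1 Finset.univ

/-- classes of effective divisors supported in `U` -/
def SU (U : Set Γ.Pt) : AddSubmonoid Γ.con.Quotient where
  carrier := {q | ∃ B : Multiset Γ.Pt, (∀ x ∈ B, x ∈ U) ∧ Γ.cl B = q}
  zero_mem' := ⟨0, by simp, rfl⟩
  add_mem' := by
    rintro _ _ ⟨B, hB, rfl⟩ ⟨B', hB', rfl⟩
    refine ⟨B + B', ?_, Γ.cl_add B B'⟩
    intro x hx
    rcases Multiset.mem_add.1 hx with h | h
    · exact hB x h
    · exact hB' x h

theorem exists_form_zeros {U : Set Γ.Pt} (hU : IsOpen U) (hne : U.Nonempty) :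
    ∃ (e : ℕ) (s : Sx), s.IsHomogeneous e ∧ ¬ Γ.F ∣ s ∧ (∃ x : Γ.Pt, eval x.rep s = 0) ∧
      ∀ x : Γ.Pt, eval x.rep s = 0 → x ∈ U := by
  have hm := Γ.hm
  obtain ⟨a, haS, ha⟩ := absorb (fun x => Γ.cl {x}) U hU hne (Γ.SU U)
    (fun x hx => ⟨{x}, by simpa using hx, rfl⟩) (by
      intro t
      obtain ⟨n, p, hp, h⟩ := Γ.L0 t hU hne
      refine ⟨n, p, hp, fun O hO => ?_⟩
      filter_upwards [h O hO] with t' ht'
      obtain ⟨p', hp', heq⟩ := ht'
      refine ⟨p', hp', ?_⟩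
      rw [← Γ.cl_eq_iff, Γ.cl_cons, Γ.cl_cons, Γ.cl_map, Γ.cl_map] at heq
      exact heq)
  obtain ⟨A₀, hA₀, rfl⟩ := haS
  obtain ⟨u, hu⟩ := hne
  set e := Γ.g * A₀.card + Γ.g + Γ.m with he
  have hme : Γ.g * A₀.card + Γ.g ≤ Γ.m * e := by
    calc Γ.g * A₀.card + Γ.g ≤ e := by omega
      _ ≤ Γ.m * e := Nat.le_mul_of_pos_left e hm
  set E : Multiset Γ.Pt := Multiset.replicate (Γ.m * e - Γ.g - Γ.g * A₀.card) u with hE
  set M : Multiset Γ.Pt := E + Γ.g • A₀ with hM
  have hMcard : M.card = Γ.m * e - Γ.g := by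
    rw [hM, Multiset.card_add, hE, Multiset.card_replicate, Multiset.card_nsmul]
    omega
  obtain ⟨D, hD, hDF, hDM⟩ := Γ.riemann (e := e) (by omega) (A := M) (by omega)
  obtain ⟨DD, hDD⟩ := Γ.exists_div hD hDF
  have hDDcard := Γ.bezout hD hDF hDD
  have hle : M ≤ DD := by
    rw [Multiset.le_iff_count]
    intro x
    have := hDM x
    rw [hDD] at this
    exact_mod_cast this
  obtain ⟨R, hR⟩ := Multiset.le_iff_exists_add.1 hle
  have hRcard : R.card = Γ.g := by
    rw [hR, Multiset.card_add, hMcard, mul_comm e] at hDDcard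
    omega
  have hclD : Γ.cl DD ∈ Γ.SU U := by
    have h1 : ∀ R : Multiset Γ.Pt, Γ.cl R + R.card • Γ.cl A₀ ∈ Γ.SU U := by
      intro R
      induction R using Multiset.induction_on with
      | empty =>
        rw [Multiset.card_zero, zero_nsmul, add_zero]
        exact (Γ.SU U).zero_mem
      | cons r R ih =>
        rw [Multiset.card_cons, succ_nsmul, Γ.cl_cons]
        have : Γ.cl {r} + Γ.cl R + (R.card • Γ.cl A₀ + Γ.cl A₀) =
            (Γ.cl {r} + Γ.cl A₀) + (Γ.cl R + R.card • Γ.cl A₀) := by abel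
        rw [this]
        exact (Γ.SU U).add_mem (ha r) ih
    have h2 : Γ.cl DD = Γ.cl E + (Γ.cl R + R.card • Γ.cl A₀) := by
      rw [hR, hM, Γ.cl_add, Γ.cl_add, hRcard]
      have : Γ.cl (Γ.g • A₀) = Γ.g • Γ.cl A₀ := rfl
      rw [this]
      abel
    rw [h2]
    refine (Γ.SU U).add_mem ⟨E, ?_, rfl⟩ (h1 R)
    intro x hx
    rw [hE] at hx
    rw [Multiset.eq_of_mem_replicate hx]
    exact hu
  obtain ⟨B, hBU, hB⟩ := hclD
  rw [Γ.cl_eq_iff] at hB
  obtain ⟨d', P, Q, hP, hQ, hPF, hQF, hPQ⟩ := hB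
  have hPD : ∀ x, Γ.ord x (P * D) = Γ.ord x Q + B.count x := by
    intro x
    rw [Γ.ord_mul, hDD, hPQ]
  obtain ⟨s, hs, hs'⟩ := Γ.noether_form hQ hQF (hP.mul hD) (by omega) (by omega)
    (fun x => by rw [hPD]; exact le_self_add)
  have e1 : d' + e - d' = e := by omega
  rw [e1] at hs
  have hsB : ∀ x, Γ.ord x s = B.count x := by
    intro x
    have h1 := hs' x
    rw [hPD, add_comm] at h1
    exact (ENat.add_left_injective_of_ne_top (Γ.ord_ne_top hQ hQF x) h1).symm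
  have hsF : ¬ Γ.F ∣ s := by
    intro h
    have h1 := (Γ.lp u).ord_of_dvd h
    have h2 := hsB u
    rw [ord, h1] at h2
    exact ENat.top_ne_natCast _ h2
  have hcard := Γ.bezout hs hsF hsB
  refine ⟨e, s, hs, hsF, ?_, ?_⟩
  · have h1 : 0 < B.card := by
      rw [hcard]
      apply Nat.mul_pos _ hm
      omega
    obtain ⟨x, hx⟩ := Multiset.card_pos_iff_exists_mem.1 h1
    refine ⟨x, ?_⟩
    rw [← LP.one_le_ord_iff (Γ.lp x)]
    have h2 := hsB x
    rw [ord] at h2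
    rw [h2]
    exact_mod_cast Multiset.one_le_count_iff_mem.2 hx
  · intro x hx
    rw [← LP.one_le_ord_iff (Γ.lp x)] at hx
    have h2 := hsB x
    rw [ord] at h2
    rw [h2] at hx
    exact hBU x (Multiset.one_le_count_iff_mem.1 (by exact_mod_cast hx))

end Curve

end Pool.Agent.TH166.TP
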