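import Mathlib
import Pool.Agent.TH166.TP.H

set_option autoImplicit false

/-!
# Real structures
-/

open MvPolynomial Filter Topology

namespace Pool.Agent.TH166.TP

/-! ### A topological lemma -/

theorem two_parts {X : Type*} [TopologicalSpace X] [PreconnectedSpace X] (R : Set X)
    (hdense : ∀ p ∈ R, p ∈ closure Rᶜ) (P Q : Set X) (hP : IsOpen P)
    (hQ : IsOpen Q) (hPQ : P ∪ Q = Rᶜ) (hdisj : ∀ x ∈ P, x ∉ Q)
    (hloc : ∀ p ∈ R, ∃ N : Set X, N ∪ R ∈ 𝓝 p ∧ (N ⊆ P ∨ N ⊆ Q)) :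
    P = ∅ ∨ Q = ∅ := by
  have hPR : ∀ x ∈ P, x ∉ R := fun x hx => by
    have : x ∈ P ∪ Q := Or.inl hx
    rwa [hPQ] at this
  have hQR : ∀ x ∈ Q, x ∉ R := fun x hx => by
    have : x ∈ P ∪ Q := Or.inr hx
    rwa [hPQ] at this
  have hcup : closure P ∪ closure Q = Set.univ := by
    rw [← closure_union, hPQ]
    ext x
    simp only [Set.mem_univ, iff_true]
    by_cases hx : x ∈ R
    · exact hdense x hx
    · exact subset_closure hx
  have hcap : ∀ x, x ∈ closure P → x ∉ closure Q := by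
    intro x hxP hxQ
    by_cases hx : x ∈ R
    · obtain ⟨N, hN, hN'⟩ := hloc x hx
      rcases hN' with h | h
      · obtain ⟨y, hy, hy'⟩ := mem_closure_iff_nhds.1 hxQ _ hN
        rcases hy with hy | hy
        · exact hdisj y (h hy) hy'
        · exact hQR y hy' hy
      · obtain ⟨y, hy, hy'⟩ := mem_closure_iff_nhds.1 hxP _ hN
        rcases hy with hy | hy
        · exact hdisj y hy' (h hy)
        · exact hPR y hy' hy
    · have h1 : x ∈ P ∪ Q := by rw [hPQ]; exact hx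
      rcases h1 with h1 | h1
      · obtain ⟨y, hy, hy'⟩ := mem_closure_iff.1 hxQ P hP h1
        exact hdisj y hy hy'
      · obtain ⟨y, hy, hy'⟩ := mem_closure_iff.1 hxP Q hQ h1
        exact hdisj y hy' hy
  have hcompl : (closure P)ᶜ = closure Q := by
    ext x
    constructor
    · intro hx
      have : x ∈ closure P ∪ closure Q := by rw [hcup]; trivial
      exact this.resolve_left hx
    · intro hx hx'
      exact hcap x hx' hx
  have hclopen : IsClopen (closure P) := by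
    refine ⟨isClosed_closure, ?_⟩
    rw [← isClosed_compl_iff, hcompl]
    exact isClosed_closure
  rcases isClopen_iff.1 hclopen with h | h
  · left
    exact closure_empty_iff P |>.1 h
  · right
    rw [h, Set.compl_univ] at hcompl
    exact closure_empty_iff Q |>.1 hcompl.symm

theorem split {X : Type*} [TopologicalSpace X] [PreconnectedSpace X] (R : Set X) (σ : X → X)
    (hσ : ∀ x, σ (σ x) = x) (hσR : ∀ x, x ∈ R → σ x ∈ R) (hσc : Continuous σ)
    (hdense : ∀ p ∈ R, p ∈ closure Rᶜ)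
    (hloc : ∀ p ∈ R, ∃ N₁ N₂ : Set X, IsPreconnected N₁ ∧ IsPreconnected N₂ ∧ N₁ ⊆ Rᶜ ∧
      N₂ ⊆ Rᶜ ∧ (∀ x ∈ N₁, σ x ∈ N₂) ∧ (∀ x ∈ N₂, σ x ∈ N₁) ∧ (N₁ ∪ N₂) ∪ R ∈ 𝓝 p)
    (A B : Set X) (hA : IsOpen A) (hB : IsOpen B) (hAB : A ∪ B = Rᶜ) (hdisj : ∀ x ∈ A, x ∉ B)
    (hAne : A.Nonempty) (hBne : B.Nonempty) :
    ∃ U : Set X, IsOpen U ∧ U.Nonempty ∧ (∀ x, x ∈ U → σ x ∉ U) ∧ ∀ x, x ∉ R → x ∈ U ∨ σ x ∈ U := by
  have hσR' : ∀ x, x ∉ R → σ x ∉ R := by
    intro x hx h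
    have := hσR _ h
    rw [hσ] at this
    exact hx this
  have hmem : ∀ x, x ∉ R → x ∈ A ∨ x ∈ B := by
    intro x hx
    have : x ∈ A ∪ B := by rw [hAB]; exact hx
    exact this
  have hAR : ∀ x ∈ A, x ∉ R := fun x hx => by
    have : x ∈ A ∪ B := Or.inl hx
    rwa [hAB] at this
  have hBR : ∀ x ∈ B, x ∉ R := fun x hx => by
    have : x ∈ A ∪ B := Or.inr hx
    rwa [hAB] at this
  let Y : Set X := {x | (x ∈ A ∧ σ x ∈ B) ∨ (x ∈ B ∧ σ x ∈ A)}
  let Y' : Set X := {x | (x ∈ A ∧ σ x ∈ A) ∨ (x ∈ B ∧ σ x ∈ B)}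
  have hY : IsOpen Y := (hA.inter (hB.preimage hσc)).union (hB.inter (hA.preimage hσc))
  have hY' : IsOpen Y' := (hA.inter (hA.preimage hσc)).union (hB.inter (hB.preimage hσc))
  have hYY : Y ∪ Y' = Rᶜ := by
    ext x
    constructor
    · rintro ((h | h) | (h | h))
      · exact hAR x h.1
      · exact hBR x h.1
      · exact hAR x h.1
      · exact hBR x h.1
    · intro hx
      rcases hmem x hx with h | h <;> rcases hmem _ (hσR' x hx) with h' | h'
      · exact Or.inr (Or.inl ⟨h, h'⟩)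
      · exact Or.inl (Or.inl ⟨h, h'⟩)
      · exact Or.inl (Or.inr ⟨h, h'⟩)
      · exact Or.inr (Or.inr ⟨h, h'⟩)
  have hYd : ∀ x ∈ Y, x ∉ Y' := by
    rintro x (⟨h1, h2⟩ | ⟨h1, h2⟩) (⟨h3, h4⟩ | ⟨h3, h4⟩)
    · exact hdisj _ h4 h2
    · exact hdisj _ h1 h3
    · exact hdisj _ h3 h1
    · exact hdisj _ h2 h4
  have hside : ∀ N : Set X, IsPreconnected N → N ⊆ Rᶜ → N ⊆ A ∨ N ⊆ B := by
    intro N hN hNR
    apply isPreconnected_iff_subset_of_disjoint.1 hN A B hA hB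
    · rw [hAB]; exact hNR
    · ext x
      simp only [Set.mem_inter_iff, Set.mem_empty_iff_false, iff_false]
      rintro ⟨-, h1, h2⟩
      exact hdisj x h1 h2
  rcases two_parts R hdense Y Y' hY hY' hYY hYd (by
    intro p hp
    obtain ⟨N₁, N₂, h1, h2, h3, h4, h5, h6, h7⟩ := hloc p hp
    refine ⟨N₁ ∪ N₂, h7, ?_⟩
    rcases hside N₁ h1 h3 with g1 | g1 <;> rcases hside N₂ h2 h4 with g2 | g2
    · right
      rintro x (hx | hx)
      · exact Or.inl ⟨g1 hx, g2 (h5 x hx)⟩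
      · exact Or.inl ⟨g2 hx, g1 (h6 x hx)⟩
    · left
      rintro x (hx | hx)
      · exact Or.inl ⟨g1 hx, g2 (h5 x hx)⟩
      · exact Or.inr ⟨g2 hx, g1 (h6 x hx)⟩
    · left
      rintro x (hx | hx)
      · exact Or.inr ⟨g1 hx, g2 (h5 x hx)⟩
      · exact Or.inl ⟨g2 hx, g1 (h6 x hx)⟩
    · right
      rintro x (hx | hx)
      · exact Or.inr ⟨g1 hx, g2 (h5 x hx)⟩
      · exact Or.inr ⟨g2 hx, g1 (h6 x hx)⟩) with hYe | hYe
  · -- `Y = ∅` is impossible
    exfalso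
    have hAA : ∀ x ∈ A, σ x ∈ A := by
      intro x hx
      rcases hmem _ (hσR' x (hAR x hx)) with h | h
      · exact h
      · have : x ∈ Y := Or.inl ⟨hx, h⟩
        rw [hYe] at this
        exact absurd this (Set.notMem_empty x)
    have hBB : ∀ x ∈ B, σ x ∈ B := by
      intro x hx
      rcases hmem _ (hσR' x (hBR x hx)) with h | h
      · have : x ∈ Y := Or.inr ⟨hx, h⟩
        rw [hYe] at this
        exact absurd this (Set.notMem_empty x)
      · exact h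
    rcases two_parts R hdense A B hA hB hAB hdisj (by
      intro p hp
      obtain ⟨N₁, N₂, h1, h2, h3, h4, h5, h6, h7⟩ := hloc p hp
      refine ⟨N₁ ∪ N₂, h7, ?_⟩
      rcases hside N₁ h1 h3 with g1 | g1
      · left
        rintro x (hx | hx)
        · exact g1 hx
        · have := hAA _ (g1 (h6 x hx))
          rwa [hσ] at this
      · right
        rintro x (hx | hx)
        · exact g1 hx
        · have := hBB _ (g1 (h6 x hx))
          rwa [hσ] at this) with h | h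
    · rw [h] at hAne; exact Set.not_nonempty_empty hAne
    · rw [h] at hBne; exact Set.not_nonempty_empty hBne
  · refine ⟨{x | x ∈ A ∧ σ x ∈ B}, hA.inter (hB.preimage hσc), ?_, ?_, ?_⟩
    · obtain ⟨x, hx⟩ := hAne
      have h1 : x ∈ Y ∪ Y' := by rw [hYY]; exact hAR x hx
      rw [hYe, Set.union_empty] at h1
      rcases h1 with h1 | h1
      · exact ⟨x, h1⟩
      · exact absurd h1.1 (hdisj x hx)
    · rintro x ⟨h1, h2⟩ ⟨h3, h4⟩
      exact hdisj _ h3 h2
    · intro x hx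
      have h1 : x ∈ Y ∪ Y' := by rw [hYY]; exact hx
      rw [hYe, Set.union_empty] at h1
      rcases h1 with h1 | h1
      · exact Or.inl h1
      · right
        refine ⟨h1.2, ?_⟩
        rw [hσ]
        exact h1.1

/-! ### Conjugation -/

/-- conjugation of the coefficients -/
noncomputable def cj (P : Sx) : Sx := map (starRingEnd ℂ) P

theorem eval_cj (P : Sx) (v : Fin 3 → ℂ) : eval (star v) (cj P) = starRingEnd ℂ (eval v P) := by
  rw [map_eval]
  rfl

theorem eval_cj' (P : Sx) (v : Fin 3 → ℂ) : eval v (cj P) = starRingEnd ℂ (eval (star v) P) := by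
  rw [← eval_cj, star_star]

theorem cj_homog {n : ℕ} {P : Sx} (hP : P.IsHomogeneous n) : (cj P).IsHomogeneous n :=
  hP.map _

namespace Curve

variable (Γ : Curve)

/-- real curves -/
def IsReal : Prop := cj Γ.F = Γ.F

variable {Γ}

theorem F_star (hΓ : Γ.IsReal) {v : Fin 3 → ℂ} (hv : eval v Γ.F = 0) :
    eval (star v) Γ.F = 0 := by
  have := eval_cj Γ.F v
  rw [hΓ, hv, map_zero] at this
  exact this

/-- the involution on the points of a real curve -/
noncomputable def σ (hΓ : Γ.IsReal) (x : Γ.Pt) : Γ.Pt :=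
  Γ.mkPt (star x.rep) (by simpa using x.rep_ne) (F_star hΓ x.F_rep)

theorem σ_mkPt (hΓ : Γ.IsReal) {v : Fin 3 → ℂ} {h0 : v ≠ 0} {hF : eval v Γ.F = 0} :
    σ hΓ (Γ.mkPt v h0 hF) = Γ.mkPt (star v) (by simpa using h0) (F_star hΓ hF) := by
  obtain ⟨a, ha, ha'⟩ := Γ.rep_mkPt_smul (h0 := h0) (hF := hF)
  rw [σ, Γ.mkPt_eq_iff]
  refine ⟨star a, ?_⟩
  rw [ha', star_smul]

theorem σ_σ (hΓ : Γ.IsReal) (x : Γ.Pt) : σ hΓ (σ hΓ x) = x := by
  conv_lhs => rw [← Γ.mkPt_rep x]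
  rw [σ_mkPt, σ_mkPt]
  conv_rhs => rw [← Γ.mkPt_rep x]
  rw [Γ.mkPt_eq_iff]
  exact ⟨1, by rw [one_smul, star_star]⟩

theorem continuous_σ (hΓ : Γ.IsReal) : Continuous (σ hΓ) := by
  rw [continuous_iff_continuousAt]
  intro x
  show Tendsto (σ hΓ) (𝓝 x) (𝓝 (σ hΓ x))
  rw [tendsto_iff_eventually]
  intro P hP
  rw [σ, Γ.eventually_nhds] at hP
  rw [← Γ.mkPt_rep x, Γ.eventually_nhds]
  have h1 : Tendsto (fun w : Fin 3 → ℂ => star w) (𝓝 x.rep) (𝓝 (star x.rep)) :=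
    continuous_star.continuousAt
  filter_upwards [h1.eventually hP] with w hw h h'
  rw [σ_mkPt]
  exact hw _ _

variable (Γ) in
/-- real points -/
def RPt : Set Γ.Pt := {x | ∃ (w : Fin 3 → ℝ) (h : (fun i => (w i : ℂ)) ≠ 0),
  x.1 = Projectivization.mk ℂ (fun i => (w i : ℂ)) h}

theorem mem_RPt {x : Γ.Pt} : x ∈ Γ.RPt ↔ ∃ (w : Fin 3 → ℝ) (h : (fun i => (w i : ℂ)) ≠ 0)
    (h' : eval (fun i => (w i : ℂ)) Γ.F = 0), x = Γ.mkPt (fun i => (w i : ℂ)) h h' := by
  constructor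
  · rintro ⟨w, h, hx⟩
    have h' : eval (fun i => (w i : ℂ)) Γ.F = 0 := by
      have := x.2
      rw [hx] at this
      exact (eval_rep_eq_zero_iff Γ.hF _ h).1 this
    exact ⟨w, h, h', Subtype.ext hx⟩
  · rintro ⟨w, h, h', rfl⟩
    exact ⟨w, h, rfl⟩

theorem σ_of_mem (hΓ : Γ.IsReal) {x : Γ.Pt} (hx : x ∈ Γ.RPt) : σ hΓ x = x := by
  obtain ⟨w, h, h', rfl⟩ := mem_RPt.1 hx
  rw [σ_mkPt, Γ.mkPt_eq_iff]
  refine ⟨1, ?_⟩
  rw [one_smul]
  funext i
  simp

end Curve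

theorem isClosed_RP2 : IsClosed {p : CP2 | ∃ (w : Fin 3 → ℝ) (h : (fun i => (w i : ℂ)) ≠ 0),
    p = Projectivization.mk ℂ (fun i => (w i : ℂ)) h} := by
  let f : Metric.sphere (0 : Fin 3 → ℝ) 1 → CP2 := fun v => pr ⟨fun i => (v.1 i : ℂ), by
    intro h
    have h1 := v.2
    have h2 : v.1 = 0 := by
      funext i
      have := congrFun h i
      simpa using this
    rw [h2] at h1
    simp at h1⟩
  have hf : Continuous f := by
    apply continuous_pr.comp
    apply Continuous.subtype_mk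
    apply continuous_pi
    intro i
    exact Complex.continuous_ofReal.comp ((continuous_apply i).comp continuous_subtype_val)
  have : CompactSpace (Metric.sphere (0 : Fin 3 → ℝ) 1) :=
    isCompact_iff_compactSpace.1 (isCompact_sphere 0 1)
  have hr : {p : CP2 | ∃ (w : Fin 3 → ℝ) (h : (fun i => (w i : ℂ)) ≠ 0),
      p = Projectivization.mk ℂ (fun i => (w i : ℂ)) h} = Set.range f := by
    ext p
    constructor
    · rintro ⟨w, h, rfl⟩
      have hw : w ≠ 0 := by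
        rintro rfl
        apply h
        funext i
        simp
      have hn : ‖w‖ ≠ 0 := norm_ne_zero_iff.2 hw
      refine ⟨⟨(‖w‖)⁻¹ • w, ?_⟩, ?_⟩
      · rw [mem_sphere_zero_iff_norm, norm_smul, norm_inv, norm_norm]
        field_simp
      · apply (Projectivization.mk_eq_mk_iff' ℂ _ _ _ h).2
        refine ⟨((‖w‖ : ℂ)⁻¹), ?_⟩
        funext i
        simp
    · rintro ⟨v, rfl⟩
      exact ⟨v.1, _, rfl⟩
  rw [hr]
  exact (isCompact_range hf).isClosed

end Pool.Agent.TH166.TP
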