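import Mathlib
import Pool.Agent.TH166.TP.I

set_option autoImplicit false

/-!
# Local structure at real points, halves of dividing curves, and total pencils
-/

open MvPolynomial Filter Topology

namespace Pool.Agent.TH166.TP

namespace Curve

variable {Γ : Curve}

theorem isClosed_RPt : IsClosed Γ.RPt :=
  isClosed_RP2.preimage continuous_induced_dom

theorem star_ofReal (w : Fin 3 → ℝ) : star (fun i => (w i : ℂ)) = fun i => (w i : ℂ) := by
  funext i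
  simp

/-- equivariance of the parametrisation at a real vector -/
theorem equivariant (hΓ : Γ.IsReal) {w : Fin 3 → ℝ} (lp : LP Γ (fun i => (w i : ℂ))) :
    ∀ᶠ τ in 𝓝 0, star (lp.γ τ) = lp.γ (starRingEnd ℂ τ) := by
  have h1 : Tendsto (fun τ => star (lp.γ τ)) (𝓝 0) (𝓝 (fun i => (w i : ℂ))) := by
    have := (continuous_star.tendsto _).comp lp.tendsto_γ
    rw [star_ofReal] at this
    exact this
  filter_upwards [h1.eventually lp.uniq, lp.γF] with τ h2 h3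
  have h4 := h2 (F_star hΓ h3)
  have hi : star (lp.γ τ) lp.ch.i = (w lp.ch.i : ℂ) := by
    rw [Pi.star_apply, lp.γi]
    simp
  have hk : star (lp.γ τ) lp.ch.k = (w lp.ch.k : ℂ) + starRingEnd ℂ τ := by
    rw [Pi.star_apply, lp.γk]
    simp
  rw [hi, hk, div_self lp.ch.vi, one_smul, mul_one, add_sub_cancel_left] at h4
  exact h4

theorem local_real (hΓ : Γ.IsReal) {p : Γ.Pt} (hp : p ∈ Γ.RPt) :
    p ∈ closure Γ.RPtᶜ ∧ ∃ N₁ N₂ : Set Γ.Pt, IsPreconnected N₁ ∧ IsPreconnected N₂ ∧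
      N₁ ⊆ Γ.RPtᶜ ∧ N₂ ⊆ Γ.RPtᶜ ∧ (∀ x ∈ N₁, σ hΓ x ∈ N₂) ∧ (∀ x ∈ N₂, σ hΓ x ∈ N₁) ∧
      (N₁ ∪ N₂) ∪ Γ.RPt ∈ 𝓝 p := by
  obtain ⟨w, hw, hF, rfl⟩ := mem_RPt.1 hp
  obtain ⟨lp⟩ := exists_LP Γ hw hF
  have hpt : lp.pt = Γ.mkPt (fun i => (w i : ℂ)) hw hF := rfl
  have hcontγ : ∀ᶠ τ in 𝓝 0, ContinuousAt lp.γ τ := by
    have h1 : ∀ᶠ τ in 𝓝 0, ∀ a, AnalyticAt ℂ (fun τ => lp.γ τ a) τ :=
      eventually_all.2 fun a => (lp.an a).eventually_analyticAt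
    filter_upwards [h1] with τ hτ
    rw [continuousAt_pi]
    intro a
    exact (hτ a).continuousAt
  obtain ⟨ε, hε, hball⟩ := Metric.eventually_nhds_iff_ball.1
    ((equivariant hΓ lp).and (lp.γF.and (lp.ψ_loc.and hcontγ)))
  have hcont : ContinuousOn lp.loc (Metric.ball 0 ε) := by
    intro τ hτ
    apply ContinuousAt.continuousWithinAt
    obtain ⟨-, h2, -, h4⟩ := hball τ hτ
    show Tendsto lp.loc (𝓝 τ) (𝓝 (lp.loc τ))
    rw [lp.loc_eq h2]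
    apply Γ.tendsto_mkPt h4
    filter_upwards [Metric.isOpen_ball.mem_nhds hτ] with τ' hτ'
    obtain ⟨-, h2', -, -⟩ := hball τ' hτ'
    exact ⟨lp.γ_ne τ', h2', lp.loc_eq h2'⟩
  have hreal : ∀ τ ∈ Metric.ball (0 : ℂ) ε, lp.loc τ ∈ Γ.RPt → τ.im = 0 := by
    intro τ hτ hmem
    obtain ⟨-, h2, h3, -⟩ := hball τ hτ
    obtain ⟨u, hu, hu', heq⟩ := mem_RPt.1 hmem
    rw [heq, lp.ψ_mkPt] at h3
    rw [← h3]
    have : ((u lp.ch.k : ℂ) * ((w lp.ch.i : ℂ) / (u lp.ch.i : ℂ)) - (w lp.ch.k : ℂ)) =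
        ((u lp.ch.k * (w lp.ch.i / u lp.ch.i) - w lp.ch.k : ℝ) : ℂ) := by push_cast; ring
    rw [this, Complex.ofReal_im]
  have hreal' : ∀ τ ∈ Metric.ball (0 : ℂ) ε, τ.im = 0 → lp.loc τ ∈ Γ.RPt := by
    intro τ hτ him
    obtain ⟨h1, h2, -, -⟩ := hball τ hτ
    have h3 : starRingEnd ℂ τ = τ := Complex.conj_eq_iff_im.2 him
    rw [h3] at h1
    have h4 : lp.γ τ = fun i => (((lp.γ τ i).re : ℝ) : ℂ) := by
      funext i
      have := congrFun h1 i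
      rw [Pi.star_apply] at this
      exact (Complex.conj_eq_iff_re.1 this).symm
    rw [lp.loc_eq h2, mem_RPt]
    have h5 : (fun i => (((lp.γ τ i).re : ℝ) : ℂ)) ≠ 0 := by
      rw [← h4]; exact lp.γ_ne τ
    have h6 : eval (fun i => (((lp.γ τ i).re : ℝ) : ℂ)) Γ.F = 0 := by
      rw [← h4]; exact h2
    refine ⟨fun i => (lp.γ τ i).re, h5, h6, ?_⟩
    rw [Γ.mkPt_eq_iff]
    exact ⟨1, by rw [one_smul]; exact h4.symm⟩
  have hconj : ∀ τ ∈ Metric.ball (0 : ℂ) ε, σ hΓ (lp.loc τ) = lp.loc (starRingEnd ℂ τ) := by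
    intro τ hτ
    have hτ' : starRingEnd ℂ τ ∈ Metric.ball (0 : ℂ) ε := by
      rw [mem_ball_zero_iff] at hτ ⊢
      rwa [Complex.norm_conj]
    obtain ⟨h1, h2, -, -⟩ := hball τ hτ
    obtain ⟨-, h2', -, -⟩ := hball _ hτ'
    rw [lp.loc_eq h2, lp.loc_eq h2', σ_mkPt, Γ.mkPt_eq_iff]
    exact ⟨1, by rw [one_smul, h1]⟩
  have hconjball : ∀ τ ∈ Metric.ball (0 : ℂ) ε, starRingEnd ℂ τ ∈ Metric.ball (0 : ℂ) ε := by
    intro τ hτ
    rw [mem_ball_zero_iff] at hτ ⊢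
    rwa [Complex.norm_conj]
  refine ⟨?_, lp.loc '' (Metric.ball 0 ε ∩ {τ | 0 < τ.im}),
    lp.loc '' (Metric.ball 0 ε ∩ {τ | τ.im < 0}), ?_, ?_, ?_, ?_, ?_, ?_, ?_⟩
  · have h1 : Tendsto (fun δ : ℝ => lp.loc ((δ : ℂ) * Complex.I)) (𝓝[>] 0) (𝓝 lp.pt) := by
      have h2 : Tendsto (fun δ : ℝ => ((δ : ℂ) * Complex.I)) (𝓝[>] 0) (𝓝 0) := by
        have h3 : Continuous (fun δ : ℝ => ((δ : ℂ) * Complex.I)) :=
          Complex.continuous_ofReal.mul continuous_const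
        have h4 := h3.tendsto 0
        simp only [Complex.ofReal_zero, zero_mul] at h4
        exact h4.mono_left nhdsWithin_le_nhds
      exact lp.tendsto_loc.comp h2
    apply mem_closure_of_tendsto h1
    have h5 : ∀ᶠ δ : ℝ in 𝓝[>] 0, δ < ε :=
      nhdsWithin_le_nhds (Iio_mem_nhds hε)
    filter_upwards [h5, self_mem_nhdsWithin] with δ hδ hδ0
    intro hmem
    have hδ0' : (0 : ℝ) < δ := hδ0
    have h6 := hreal _ (by
      rw [mem_ball_zero_iff, norm_mul, Complex.norm_I, mul_one, Complex.norm_real,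
        Real.norm_eq_abs, abs_of_pos hδ0']
      exact hδ) hmem
    simp at h6
    exact hδ0'.ne' h6
  · apply IsPreconnected.image
    · apply Convex.isPreconnected
      exact (convex_ball 0 ε).inter (convex_halfSpace_im_gt 0)
    · exact hcont.mono Set.inter_subset_left
  · apply IsPreconnected.image
    · apply Convex.isPreconnected
      exact (convex_ball 0 ε).inter (convex_halfSpace_im_lt 0)
    · exact hcont.mono Set.inter_subset_left
  · rintro _ ⟨τ, ⟨h1, h2⟩, rfl⟩ hmem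
    exact (ne_of_gt h2) (hreal τ h1 hmem)
  · rintro _ ⟨τ, ⟨h1, h2⟩, rfl⟩ hmem
    exact (ne_of_lt h2) (hreal τ h1 hmem)
  · rintro _ ⟨τ, ⟨h1, h2⟩, rfl⟩
    rw [hconj τ h1]
    refine ⟨_, ⟨hconjball τ h1, ?_⟩, rfl⟩
    simp only [Set.mem_ofPred_eq, Complex.conj_im] at h2 ⊢
    linarith
  · rintro _ ⟨τ, ⟨h1, h2⟩, rfl⟩
    rw [hconj τ h1]
    refine ⟨_, ⟨hconjball τ h1, ?_⟩, rfl⟩
    simp only [Set.mem_ofPred_eq, Complex.conj_im] at h2 ⊢
    linarith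
  · rw [← hpt, lp.nhds_pt, mem_map]
    filter_upwards [Metric.ball_mem_nhds (0 : ℂ) hε] with τ hτ
    rcases lt_trichotomy τ.im 0 with h | h | h
    · exact Or.inl (Or.inr ⟨τ, ⟨hτ, h⟩, rfl⟩)
    · exact Or.inr (hreal' τ hτ h)
    · exact Or.inl (Or.inl ⟨τ, ⟨hτ, h⟩, rfl⟩)

/-- the curve is dividing -/
def Dividing (Γ : Curve) : Prop := ¬ IsPreconnected (Γ.RPtᶜ)

theorem exists_half (hΓ : Γ.IsReal) (hdiv : Γ.Dividing) :
    ∃ U : Set Γ.Pt, IsOpen U ∧ U.Nonempty ∧ (∀ x, x ∈ U → σ hΓ x ∉ U) ∧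
      ∀ x, x ∉ Γ.RPt → x ∈ U ∨ σ hΓ x ∈ U := by
  rw [Dividing, IsPreconnected] at hdiv
  push Not at hdiv
  obtain ⟨u, v, hu, hv, huv, hu', hv', hinter⟩ := hdiv
  have hR : IsOpen Γ.RPtᶜ := isClosed_RPt.isOpen_compl
  refine split Γ.RPt (σ hΓ) (σ_σ hΓ) (fun x hx => by rw [σ_of_mem hΓ hx]; exact hx)
    (continuous_σ hΓ) (fun p hp => (local_real hΓ hp).1) (fun p hp => (local_real hΓ hp).2)
    (Γ.RPtᶜ ∩ u) (Γ.RPtᶜ ∩ v) (hR.inter hu) (hR.inter hv) ?_ ?_ hu' hv'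
  · rw [← Set.inter_union_distrib_left]
    exact Set.inter_eq_left.2 huv
  · rintro x ⟨h1, h2⟩ ⟨-, h3⟩
    have : x ∈ Γ.RPtᶜ ∩ (u ∩ v) := ⟨h1, h2, h3⟩
    rw [hinter] at this
    exact this

theorem continuousAt_rat {n : ℕ} {T D : Sx} (hT : T.IsHomogeneous n) (hD : D.IsHomogeneous n)
    {x : Γ.Pt} (hx : eval x.rep D ≠ 0) : ContinuousAt (Γ.rat T D) x := by
  show Tendsto (Γ.rat T D) (𝓝 x) (𝓝 (Γ.rat T D x))
  rw [tendsto_iff_eventually]
  intro P hP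
  have h1 : ContinuousAt (fun w : Fin 3 → ℂ => eval w T / eval w D) x.rep :=
    (MvPolynomial.continuous_eval T).continuousAt.div
      (MvPolynomial.continuous_eval D).continuousAt hx
  rw [← Γ.mkPt_rep x, Γ.eventually_nhds]
  filter_upwards [h1.eventually hP] with w hw h h'
  rw [Γ.rat_mkPt hT hD]
  exact hw

/-- a form with all zeros in one half is dominated by its conjugate on one side -/
theorem norm_ne (hΓ : Γ.IsReal) {U : Set Γ.Pt} (hU : IsOpen U) (hne : U.Nonempty)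
    (hσU : ∀ x, x ∈ U → σ hΓ x ∉ U) (hcov : ∀ x, x ∉ Γ.RPt → x ∈ U ∨ σ hΓ x ∈ U)
    {n : ℕ} {s : Sx} (hs : s.IsHomogeneous n) {z : Γ.Pt} (hz : eval z.rep s = 0)
    (hzero : ∀ x : Γ.Pt, eval x.rep s = 0 → x ∈ U) {x : Γ.Pt} (hx : x ∉ Γ.RPt) (hxU : x ∉ U) :
    ‖eval x.rep (cj s)‖ < ‖eval x.rep s‖ := by
  have hcs := cj_homog hs
  -- no proportionality
  have hprop : ∀ c : ℂ, ¬ Γ.F ∣ cj s - C c * s := by
    intro c hc
    obtain ⟨k, hk⟩ := hc
    have h1 := congrArg (eval z.rep) hk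
    rw [map_sub, map_mul, map_mul, hz, z.F_rep, mul_zero, zero_mul, sub_zero, eval_cj'] at h1
    have h2 : eval (star z.rep) s = 0 := by
      have := congrArg (starRingEnd ℂ) h1
      simpa using this
    have h3 : eval (σ hΓ z).rep s = 0 := by
      rw [σ, Γ.eval_rep_mkPt hs]
      exact h2
    exact hσU z (hzero z hz) (hzero _ h3)
  have hnz : ∀ y : Γ.Pt, y ∉ U → eval y.rep s ≠ 0 := fun y hy h => hy (hzero y h)
  -- a maximum outside the real points is impossible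
  have hkey : ∀ y : Γ.Pt, y ∉ Γ.RPt → y ∉ U →
      (∀ x : Γ.Pt, x ∉ U → ‖Γ.rat (cj s) s x‖ ≤ ‖Γ.rat (cj s) s y‖) → False := by
    intro y hy hyU hmax
    apply hprop (Γ.rat (cj s) s y)
    apply Γ.dvd_of_max hcs hs (hnz y hyU)
    have hσy : σ hΓ y ∈ U := (hcov y hy).resolve_left hyU
    have h1 : ∀ᶠ x in 𝓝 y, σ hΓ x ∈ U :=
      (continuous_σ hΓ).continuousAt.eventually (hU.mem_nhds hσy)
    filter_upwards [h1] with x hx
    apply hmax
    intro hxU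
    exact hσU x hxU hx
  have hK : IsCompact Uᶜ := hU.isClosed_compl.isCompact
  obtain ⟨q, hq, hmax⟩ := hK.exists_isMaxOn ⟨x, hxU⟩
    (f := fun x => ‖Γ.rat (cj s) s x‖) (fun y hy =>
      (continuousAt_rat hcs hs (hnz y hy)).norm.continuousWithinAt)
  have hqR : q ∈ Γ.RPt := by
    by_contra hqR
    exact hkey q hqR hq (fun x hx => hmax hx)
  have hq1 : ‖Γ.rat (cj s) s q‖ = 1 := by
    have hqnz := hnz q hq
    obtain ⟨w, hw, hF, rfl⟩ := mem_RPt.1 hqR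
    rw [ne_eq, Γ.eval_rep_mkPt hs] at hqnz
    rw [Γ.rat_mkPt hcs hs, eval_cj', star_ofReal, norm_div, Complex.norm_conj, div_self]
    exact norm_ne_zero_iff.2 hqnz
  have hle : ∀ y : Γ.Pt, y ∉ U → ‖Γ.rat (cj s) s y‖ ≤ 1 := by
    intro y hy
    rw [← hq1]
    exact hmax hy
  have hlt : ‖Γ.rat (cj s) s x‖ < 1 := by
    apply lt_of_le_of_ne (hle x hxU)
    intro h
    exact hkey x hx hxU (fun y hy => by rw [h]; exact hle y hy)
  rw [rat, norm_div, div_lt_one (norm_pos_iff.2 (hnz x hxU))] at hlt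
  exact hlt

/-- existence of a form whose modulus differs from that of its conjugate off the real points -/
theorem exists_total (hΓ : Γ.IsReal) (hdiv : Γ.Dividing) : ∃ (d : ℕ) (s : Sx),
    s.IsHomogeneous d ∧ (∀ x : Γ.Pt, x ∉ Γ.RPt → ‖eval x.rep (cj s)‖ ≠ ‖eval x.rep s‖) ∧
    ∃ x : Γ.Pt, x ∉ Γ.RPt ∧ eval x.rep s = 0 := by
  obtain ⟨U, hU, hne, hσU, hcov⟩ := exists_half hΓ hdiv
  obtain ⟨d, s, hs, -, ⟨z, hz⟩, hzero⟩ := Γ.exists_form_zeros hU hne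
  refine ⟨d, s, hs, ?_, z, ?_, hz⟩
  · intro x hx
    by_cases hxU : x ∈ U
    · have hσx : σ hΓ x ∉ Γ.RPt := by
        intro h
        have h1 := σ_of_mem hΓ h
        rw [σ_σ] at h1
        rw [← h1] at h
        exact hx h
      have h1 := norm_ne hΓ hU hne hσU hcov hs hz hzero hσx (hσU x hxU)
      have h2 : σ hΓ x = Γ.mkPt (star x.rep) (by simpa using x.rep_ne) (F_star hΓ x.F_rep) := rfl
      obtain ⟨a, ha, ha'⟩ := Γ.rep_mkPt_smul (h0 := show star x.rep ≠ 0 by simpa using x.rep_ne)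
        (hF := F_star hΓ x.F_rep)
      rw [h2, ha', eval_smul (cj_homog hs), eval_smul hs, eval_cj, norm_mul, norm_mul,
        Complex.norm_conj] at h1
      have h3 : ‖eval (star x.rep) s‖ = ‖eval x.rep (cj s)‖ := by
        rw [eval_cj', Complex.norm_conj]
      rw [h3] at h1
      have h4 := lt_of_mul_lt_mul_left h1 (norm_nonneg _)
      exact h4.ne'
    · exact (norm_ne hΓ hU hne hσU hcov hs hz hzero hx hxU).ne
  · intro h
    apply hσU z (hzero z hz)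
    rw [σ_of_mem hΓ h]
    exact hzero z hz

end Curve

end Pool.Agent.TH166.TP
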